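import Pool.Agent.Lib.MP_04d34b_co.Step

/-!
The base case `p = 3`.
-/

namespace Pool.Agent.TDPath

variable {V : Type}

/-- `v` has a neighbour in `A`. -/
def AdjTo (G : SimpleGraph V) (v : V) (A : Set V) : Prop := ∃ a ∈ A, G.Adj v a

/-- The graph of non-touching pairs of sets. -/
def NT (G : SimpleGraph V) : SimpleGraph (Set V) where
  Adj A B := A ≠ B ∧ ¬ Touch G A B
  symm := ⟨fun _ _ h => ⟨h.1.symm, fun h' => h.2 h'.symm⟩⟩
  loopless := ⟨fun _ h => h.1 rfl⟩

theorem common_nbr {G : SimpleGraph V} {F : Set (Set V)} {S C A B : Set V}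
    (h : ¬ Far G F 3 S) (hCS : C ⊆ S) (hC : Conn G C) (hA : A ∈ F) (hB : B ∈ F)
    (hAC : A ⊆ C) (hBC : B ⊆ C) (hAB : ¬ Touch G A B) :
    ∃ x ∈ C, x ∉ A ∧ x ∉ B ∧ AdjTo G x A ∧ AdjTo G x B := by
  classical
  by_contra hcon
  apply h
  refine ⟨C, hCS, hC, A, hA, B, hB, hAC, hBC,
    fun x => if x ∈ A then 0 else if AdjTo G x A then 1 else if x ∈ B then 3 else 2, ?_, ?_, ?_⟩
  · intro x hx y hy hxy
    by_cases hxA : x ∈ A
    · simp [hxA]
    · by_cases hyA : y ∈ A
      · have : AdjTo G x A := ⟨y, hyA, hxy⟩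
        simp only [hxA, if_false, this, if_true]
        omega
      · by_cases hyA' : AdjTo G y A
        · have hyB : y ∉ B := fun hyB => by
            obtain ⟨a, ha, hya⟩ := hyA'
            exact hAB ⟨a, ha, y, hyB, Or.inr hya.symm⟩
          have hxB : ¬ (x ∈ B) := fun hxB =>
            hcon ⟨y, hy, hyA, hyB, hyA', ⟨x, hxB, hxy.symm⟩⟩
          simp only [hxA, hyA, hyA', hxB, if_false, if_true]
          split_ifs <;> omega
        · simp only [hxA, hyA, hyA', if_false]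
          split_ifs <;> omega
  · intro x hx
    simp [hx]
  · intro x hx
    have h1 : x ∉ A := fun h => hAB ⟨x, h, x, hx, Or.inl rfl⟩
    have h2 : ¬ AdjTo G x A := fun ⟨a, ha, hax⟩ => hAB ⟨a, ha, x, hx, Or.inr hax.symm⟩
    simp only [h1, h2, hx, if_false, if_true]
    exact le_rfl

theorem touch_singleton_of_adjTo {G : SimpleGraph V} {v : V} {A : Set V} (h : AdjTo G v A) :
    Touch G {v} A := by
  obtain ⟨a, ha, hva⟩ := h
  exact ⟨v, rfl, a, ha, Or.inr hva⟩

/-- A family of targets connected through non-touching pairs has a common neighbour. -/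
theorem exists_hub [Finite V] {G : SimpleGraph V} {F : Set (Set V)} (hF : ∀ A ∈ F, Conn G A)
    {S C : Set V} (h : ¬ Far G F 3 S) (hCS : C ⊆ S) (hC : Conn G C) {K : Set (Set V)}
    (hKF : K ⊆ F) (hKC : ∀ B ∈ K, B ⊆ C) (hK : Conn (NT G) K) (h2 : ∃ A ∈ K, ∃ B ∈ K, A ≠ B) :
    ∃ r ∈ C, ∀ B ∈ K, r ∉ B ∧ AdjTo G r B := by
  classical
  -- good subfamilies
  let Q : Set (Set (Set V)) := {K' | K' ⊆ K ∧ Conn (NT G) K' ∧
    ∃ r ∈ C, ∀ B ∈ K', r ∉ B ∧ AdjTo G r B}
  have hQ : Q.Nonempty := by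
    obtain ⟨A, hA, B, hB, hAB⟩ := h2
    have : ∃ B' ∈ K, (NT G).Adj A B' := by
      by_contra hcon
      push Not at hcon
      have := hK.2 {A} (Set.singleton_subset_iff.2 hA) ⟨A, rfl⟩ (by
        rintro a rfl b hb hab
        exact absurd hab (hcon b hb))
      rw [← this] at hB
      exact hAB hB.symm
    obtain ⟨B', hB', hadj⟩ := this
    obtain ⟨x, hxC, hxA, hxB, h1, h2⟩ := common_nbr h hCS hC (hKF hA) (hKF hB') (hKC A hA)
      (hKC B' hB') hadj.2
    refine ⟨{A} ∪ {B'}, ?_, ?_, x, hxC, ?_⟩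
    · rintro X (rfl | rfl)
      · exact hA
      · exact hB'
    · exact (conn_singleton _ A).union (conn_singleton _ B') ⟨A, rfl, B', rfl, Or.inr hadj⟩
    · rintro X (rfl | rfl)
      · exact ⟨hxA, h1⟩
      · exact ⟨hxB, h2⟩
  obtain ⟨K', ⟨hK'K, hK', r, hrC, hr⟩, hmax⟩ := Set.Finite.exists_maximalFor
    (fun X : Set (Set V) => X) Q (Set.toFinite _) hQ
  by_cases heq : K' = K
  · subst heq
    exact ⟨r, hrC, hr⟩
  exfalso
  have : ∃ A₁ ∈ K', ∃ B₀ ∈ K, B₀ ∉ K' ∧ (NT G).Adj A₁ B₀ := by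
    by_contra hcon
    push Not at hcon
    apply heq
    apply hK.2 K' hK'K hK'.1
    intro a ha b hb hab
    by_contra hbK
    exact hcon a ha b hb hbK hab
  obtain ⟨A₁, hA₁, B₀, hB₀, hB₀K, hadj⟩ := this
  have hnt : ¬ Touch G A₁ B₀ := hadj.2
  have hnotin : ∀ y, (∃ y' ∈ C, y' = y) → (∀ B ∈ insert B₀ K', y ∉ B ∧ AdjTo G y B) → False := by
    rintro y ⟨y', hy', rfl⟩ hy
    have h1 : insert B₀ K' ∈ Q := by
      refine ⟨?_, ?_, y', hy', hy⟩
      · rintro X (rfl | hX)
        · exact hB₀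
        · exact hK'K hX
      · have := hK'.union (conn_singleton (NT G) B₀) ⟨A₁, hA₁, B₀, rfl, Or.inr hadj⟩
        rwa [Set.union_singleton] at this
    have h2 := hmax h1 (Set.subset_insert B₀ K')
    exact hB₀K (h2 (Set.mem_insert B₀ K'))
  have hrB₀ : r ∉ B₀ := fun hrB => by
    obtain ⟨a, ha, hra⟩ := (hr A₁ hA₁).2
    exact hnt ⟨a, ha, r, hrB, Or.inr hra.symm⟩
  by_cases hrB : AdjTo G r B₀
  · exact hnotin r ⟨r, hrC, rfl⟩ (by
      rintro X (rfl | hX)
      · exact ⟨hrB₀, hrB⟩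
      · exact hr X hX)
  -- all members of `K'` are non-touching with `B₀`
  have hall : {B | B ∈ K' ∧ ¬ Touch G B B₀} = K' := by
    apply hK'.2 {B | B ∈ K' ∧ ¬ Touch G B B₀} (fun B hB => hB.1) ⟨A₁, hA₁, hnt⟩
    rintro B' ⟨hB'K, hB'⟩ B hB hadj'
    refine ⟨hB, fun htouch => ?_⟩
    -- `B₀ ∪ B ∪ {r} ∪ B'`
    have c1 : Conn G (B₀ ∪ B) := (hF _ (hKF hB₀)).union (hF _ (hKF (hK'K hB))) htouch.symm
    have c2 : Conn G (B₀ ∪ B ∪ {r}) := by
      apply c1.union (conn_singleton G r)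
      exact ((touch_singleton_of_adjTo (hr B hB).2).mono le_rfl Set.subset_union_right).symm
    have c3 : Conn G (B₀ ∪ B ∪ {r} ∪ B') := by
      apply c2.union (hF _ (hKF (hK'K hB'K)))
      exact (touch_singleton_of_adjTo (hr B' hB'K).2).mono Set.subset_union_right le_rfl
    have c4 : B₀ ∪ B ∪ {r} ∪ B' ⊆ C := by
      apply Set.union_subset (Set.union_subset (Set.union_subset (hKC _ hB₀) (hKC _ (hK'K hB))) _)
        (hKC _ (hK'K hB'K))
      exact Set.singleton_subset_iff.2 hrC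
    obtain ⟨z, hz, hz1, hz2, hz3, hz4⟩ := common_nbr h (c4.trans hCS) c3 (hKF hB₀)
      (hKF (hK'K hB'K)) (fun x hx => Or.inl (Or.inl (Or.inl hx))) (fun x hx => Or.inr hx)
      (fun ht => hB' ht.symm)
    rcases hz with ((hz | hz) | hz) | hz
    · exact hz1 hz
    · obtain ⟨b, hb, hzb⟩ := hz4
      exact hadj'.2 ⟨b, hb, z, hz, Or.inr hzb.symm⟩
    · rw [Set.mem_singleton_iff.1 hz] at hz3
      exact hrB hz3
    · exact hz2 hz
  have hall' : ∀ B ∈ K', ¬ Touch G B B₀ := fun B hB => by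
    rw [← hall] at hB
    exact hB.2
  obtain ⟨y, hyC, hyA, hyB, hy1, hy2⟩ := common_nbr h hCS hC (hKF (hK'K hA₁)) (hKF hB₀)
    (hKC _ (hK'K hA₁)) (hKC _ hB₀) hnt
  apply hnotin y ⟨y, hyC, rfl⟩
  rintro B (rfl | hB)
  · exact ⟨hyB, hy2⟩
  · have hyB' : y ∉ B := fun hyB' => by
      obtain ⟨b, hb, hyb⟩ := hy2
      exact hall' B hB ⟨y, hyB', b, hb, Or.inr hyb⟩
    refine ⟨hyB', ?_⟩
    by_contra hyadj
    -- `B₀ ∪ {y} ∪ A₁ ∪ {r} ∪ B`
    have c1 : Conn G (B₀ ∪ {y}) := (hF _ (hKF hB₀)).union (conn_singleton G y)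
      (touch_singleton_of_adjTo hy2).symm
    have c2 : Conn G (B₀ ∪ {y} ∪ A₁) := c1.union (hF _ (hKF (hK'K hA₁)))
      ((touch_singleton_of_adjTo hy1).mono Set.subset_union_right le_rfl)
    have c3 : Conn G (B₀ ∪ {y} ∪ A₁ ∪ {r}) := c2.union (conn_singleton G r)
      ((touch_singleton_of_adjTo (hr A₁ hA₁).2).symm.mono Set.subset_union_right le_rfl)
    have c4 : Conn G (B₀ ∪ {y} ∪ A₁ ∪ {r} ∪ B) := c3.union (hF _ (hKF (hK'K hB)))
      ((touch_singleton_of_adjTo (hr B hB).2).mono Set.subset_union_right le_rfl)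
    have c5 : B₀ ∪ {y} ∪ A₁ ∪ {r} ∪ B ⊆ C := by
      apply Set.union_subset (Set.union_subset (Set.union_subset (Set.union_subset
        (hKC _ hB₀) (Set.singleton_subset_iff.2 hyC)) (hKC _ (hK'K hA₁)))
        (Set.singleton_subset_iff.2 hrC)) (hKC _ (hK'K hB))
    obtain ⟨z, hz, hz1, hz2, hz3, hz4⟩ := common_nbr h (c5.trans hCS) c4 (hKF hB₀)
      (hKF (hK'K hB)) (fun x hx => Or.inl (Or.inl (Or.inl (Or.inl hx)))) (fun x hx => Or.inr hx)
      (fun ht => hall' B hB ht.symm)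
    rcases hz with (((hz | hz) | hz) | hz) | hz
    · exact hz1 hz
    · rw [Set.mem_singleton_iff.1 hz] at hz4
      exact hyadj hz4
    · obtain ⟨b, hb, hzb⟩ := hz3
      exact hnt ⟨z, hz, b, hb, Or.inr hzb⟩
    · rw [Set.mem_singleton_iff.1 hz] at hz3
      exact hrB hz3
    · exact hz2 hz

/-- Vertices adjacent to every member of `K`, outside all of them. -/
def hubSet (G : SimpleGraph V) (C : Set V) (K : Set (Set V)) : Set V :=
  {v | v ∈ C ∧ ∀ B ∈ K, v ∉ B ∧ AdjTo G v B}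

/-- `K` is a component of the graph of non-touching pairs in the family `FC`. -/
def IsComp (G : SimpleGraph V) (FC K : Set (Set V)) : Prop :=
  K ⊆ FC ∧ Conn (NT G) K ∧ ∀ A ∈ K, ∀ B ∈ FC, (NT G).Adj A B → B ∈ K

theorem IsComp.touch {G : SimpleGraph V} {FC K : Set (Set V)} (h : IsComp G FC K) {A B : Set V}
    (hA : A ∈ K) (hB : B ∈ FC) (hBK : B ∉ K) : Touch G A B := by
  by_contra hcon
  exact hBK (h.2.2 A hA B hB ⟨fun hab => hBK (hab ▸ hA), hcon⟩)

theorem IsComp.eq {G : SimpleGraph V} {FC K K' : Set (Set V)} (h : IsComp G FC K)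
    (h' : IsComp G FC K') {A : Set V} (hA : A ∈ K) (hA' : A ∈ K') : K = K' := by
  have key : ∀ K K' : Set (Set V), IsComp G FC K → IsComp G FC K' → A ∈ K → A ∈ K' → K ⊆ K' := by
    intro K K' h h' hA hA'
    rcases h.2.1.dichotomy (A := K') (fun a ha _ b hb hab => h'.2.2 a ha b (h.1 hb) hab) with h1 | h1
    · exact h1
    · exact absurd hA' (Set.disjoint_left.1 h1 hA)
  exact Set.Subset.antisymm (key K K' h h' hA hA') (key K' K h' h hA' hA)

theorem elim_three_aux [Finite V] {G : SimpleGraph V} (D : TreeDecomp G) {k : ℕ}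
    (hk : ∀ i, (D.bag i).card ≤ k + 1) {F : Set (Set V)} (hF : ∀ A ∈ F, Conn G A) :
    ∀ (m : ℕ) (J : Finset V) (S : Set V), J.card + m = k + 2 → ¬ Far G F 3 S →
      (∀ j ∈ J, j ∉ S ∧ ∀ A ∈ F, A ⊆ S → AdjTo G j A) → Elim G F (m + 2 * (k + 1)) S := by
  classical
  intro m
  induction m using Nat.strong_induction_on with
  | _ m ih =>
  intro J S hJm hS hJ
  apply Elim.of_conn hF
  intro C hCS hC
  -- all targets pairwise touch
  by_cases hall : ∀ A ∈ F, ∀ B ∈ F, A ⊆ C → B ⊆ C → Touch G A B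
  · exact (elim_of_touch D hk hF hall).mono (by omega)
  let FC : Set (Set V) := {A | A ∈ F ∧ A ⊆ C}
  have hcomp : ∀ A ∈ FC, ∃ K, IsComp G FC K ∧ A ∈ K := by
    intro A hA
    obtain ⟨K, h1, h2, h3, h4⟩ := exists_component (NT G) FC A hA
    exact ⟨K, ⟨h1, h3, h4⟩, h2⟩
  have hsFC : ∀ K, IsComp G FC K → (∃ A ∈ K, ∃ B ∈ K, A ≠ B) → ∀ C' ⊆ C, Conn G C' →
      (∀ B ∈ K, B ⊆ C') → ∃ r ∈ C', ∀ B ∈ K, r ∉ B ∧ AdjTo G r B := by
    intro K hK h2 C' hC'C hC' hKC'
    exact exists_hub hF hS (hC'C.trans hCS) hC' (fun A hA => (hK.1 hA).1) hKC' hK.2.1 h2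
  by_cases hP : ∃ K, IsComp G FC K ∧ (∃ A ∈ K, ∃ B ∈ K, A ≠ B) ∧
      J.card + (hubSet G C K).toFinite.toFinset.card ≤ k + 1
  · obtain ⟨K, hK, h2, hcard⟩ := hP
    set H := (hubSet G C K).toFinite.toFinset with hH
    have hHmem : ∀ v, v ∈ H ↔ v ∈ C ∧ ∀ B ∈ K, v ∉ B ∧ AdjTo G v B := by
      intro v
      rw [hH, Set.Finite.mem_toFinset]
      rfl
    have hHne : 0 < H.card := by
      obtain ⟨r, hrC, hr⟩ := hsFC K hK h2 C le_rfl hC (fun B hB => (hK.1 hB).2)
      exact Finset.card_pos.2 ⟨r, (hHmem r).2 ⟨hrC, hr⟩⟩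
    have hdisj : Disjoint J H := Finset.disjoint_left.2 fun v hvJ hvH =>
      (hJ v hvJ).1 (hCS ((hHmem v).1 hvH).1)
    have hstep := ih (m - H.card) (by omega) (J ∪ H) (C \ (H : Set V))
      (by rw [Finset.card_union_of_disjoint hdisj]; omega)
      (fun h => hS (h.mono_set (Set.sdiff_subset.trans hCS))) (by
        intro j hj
        constructor
        · intro hjC
          rcases Finset.mem_union.1 hj with h | h
          · exact (hJ j h).1 (hCS hjC.1)
          · exact hjC.2 h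
        · intro A hA hAC
          rcases Finset.mem_union.1 hj with h | h
          · exact (hJ j h).2 A hA ((hAC.trans Set.sdiff_subset).trans hCS)
          · have hAFC : A ∈ FC := ⟨hA, hAC.trans Set.sdiff_subset⟩
            have hAK : A ∈ K := by
              by_contra hAK
              have hc : Conn G (A ∪ ⋃₀ K) := (hF A hA).union_family K
                (fun B hB => hF B (hK.1 hB).1) (fun B hB => (hK.touch hB hAFC hAK).symm)
              obtain ⟨r, hr1, hr2⟩ := hsFC K hK h2 (A ∪ ⋃₀ K)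
                (Set.union_subset hAFC.2 (Set.sUnion_subset fun B hB => (hK.1 hB).2)) hc
                (fun B hB => (Set.subset_sUnion_of_mem hB).trans Set.subset_union_right)
              rcases hr1 with hr1 | ⟨B, hB, hrB⟩
              · exact (hAC hr1).2 ((hHmem r).2 ⟨hAFC.2 hr1, hr2⟩)
              · exact (hr2 B hB).1 hrB
            exact (((hHmem j).1 h).2 A hAK).2)
    exact (Elim.kill H hstep).mono (by omega)
  · push Not at hP
    -- one bag leaves only targets of a single component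
    obtain ⟨i, hi⟩ := bramble D {X | ∃ A ∈ FC, ∃ B ∈ FC, (∀ K, IsComp G FC K → A ∈ K → B ∉ K) ∧
        X = A ∪ B} (by
      rintro _ ⟨A, hA, B, hB, hAB, rfl⟩
      obtain ⟨K, hK, hAK⟩ := hcomp A hA
      exact (hF A hA.1).union (hF B hB.1) (hK.touch hAK hB (hAB K hK hAK))) (by
      rintro _ ⟨A, hA, B, hB, hAB, rfl⟩ _ ⟨A', hA', B', hB', hAB', rfl⟩
      obtain ⟨K, hK, hAK⟩ := hcomp A hA
      by_cases h : A' ∈ K
      · have hB'K : B' ∉ K := hAB' K hK h
        exact (hK.touch hAK hB' hB'K).mono Set.subset_union_left Set.subset_union_right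
      · exact (hK.touch hAK hA' h).mono Set.subset_union_left Set.subset_union_left)
    have hsame : ∀ A ∈ F, A ⊆ C \ (D.bag i : Set V) → ∀ B ∈ F, B ⊆ C \ (D.bag i : Set V) →
        ∀ K, IsComp G FC K → A ∈ K → B ∈ K := by
      intro A hA hAC B hB hBC K hK hAK
      by_contra hBK
      obtain ⟨x, hx, hxi⟩ := hi (A ∪ B) ⟨A, ⟨hA, hAC.trans Set.sdiff_subset⟩, B,
        ⟨hB, hBC.trans Set.sdiff_subset⟩, (fun K' hK' hAK' => by rwa [hK'.eq hK hAK' hAK]), rfl⟩
      rcases hx with hx | hx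
      · exact (hAC hx).2 hxi
      · exact (hBC hx).2 hxi
    have hE : Elim G F (k + 1) (C \ (D.bag i : Set V)) := by
      by_cases hne : ∃ A ∈ F, A ⊆ C \ (D.bag i : Set V)
      · obtain ⟨A, hA, hAC⟩ := hne
        have hAFC : A ∈ FC := ⟨hA, hAC.trans Set.sdiff_subset⟩
        obtain ⟨K, hK, hAK⟩ := hcomp A hAFC
        by_cases h2 : ∃ A ∈ K, ∃ B ∈ K, A ≠ B
        · have hc := hP K hK h2
          set H := (hubSet G C K).toFinite.toFinset with hH
          have hHmem : ∀ v, v ∈ H ↔ v ∈ C ∧ ∀ B ∈ K, v ∉ B ∧ AdjTo G v B := by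
            intro v
            rw [hH, Set.Finite.mem_toFinset]
            rfl
          have hdisj : Disjoint J H := Finset.disjoint_left.2 fun v hvJ hvH =>
            (hJ v hvJ).1 (hCS ((hHmem v).1 hvH).1)
          have hcard : k + 2 ≤ (J ∪ H).card := by
            rw [Finset.card_union_of_disjoint hdisj]; omega
          obtain ⟨U, hU, hUc⟩ := Finset.exists_subset_card_eq hcard
          let e : Fin (k + 2) ≃ U := (Fintype.equivFinOfCardEq (by simpa using hUc)).symm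
          apply elim_of_hubs D hk hF (fun j => {(e j : V)}) (fun j => conn_singleton G _)
          · intro a b hab
            rw [Set.disjoint_singleton]
            intro heq
            exact hab (e.injective (Subtype.ext heq))
          · intro j B hB hBC
            have hBK := hsame A hA hAC B hB hBC K hK hAK
            apply touch_singleton_of_adjTo
            rcases Finset.mem_union.1 (hU (e j).2) with h | h
            · exact (hJ _ h).2 B hB ((hBC.trans Set.sdiff_subset).trans hCS)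
            · exact (((hHmem _).1 h).2 B hBK).2
        · push Not at h2
          apply elim_of_touch D hk hF
          intro X hX Y hY hXC hYC
          have hXK := hsame A hA hAC X hX hXC K hK hAK
          have hYK := hsame A hA hAC Y hY hYC K hK hAK
          obtain rfl := h2 X hXK Y hYK
          obtain ⟨x, hx⟩ := (hF X hX).1
          exact ⟨x, hx, x, hx, Or.inl rfl⟩
      · push Not at hne
        have h0 : Elim G F 0 (C \ (D.bag i : Set V)) := hne
        exact h0.mono (by omega)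
    exact (Elim.kill (D.bag i) hE).mono (by have := hk i; omega)

/-- Base case `p = 3`. -/
theorem elim_three [Finite V] {G : SimpleGraph V} (D : TreeDecomp G) {k : ℕ}
    (hk : ∀ i, (D.bag i).card ≤ k + 1) {F : Set (Set V)} (hF : ∀ A ∈ F, Conn G A) {S : Set V}
    (hS : ¬ Far G F 3 S) : Elim G F (3 * k + 4) S := by
  have := elim_three_aux D hk hF (k + 2) ∅ S (by simp) hS (by simp)
  exact this.mono (by omega)

end Pool.Agent.TDPath
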