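import Pool.Agent.Lib.MP_04d34b_co.Defs

/-!
Connected vertex sets (cut form), touching sets, the Helly property of subtrees, and the lemma that
a family of pairwise touching connected sets is hit by a single bag.
-/

namespace Pool.Agent.TDPath

variable {V : Type}

/-- Cut form of connectivity of a vertex set. -/
def Conn (G : SimpleGraph V) (S : Set V) : Prop :=
  S.Nonempty ∧ ∀ A : Set V, A ⊆ S → A.Nonempty → (∀ a ∈ A, ∀ b ∈ S, G.Adj a b → b ∈ A) → A = S

/-- Two sets touch if they intersect or are joined by an edge. -/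
def Touch (G : SimpleGraph V) (A B : Set V) : Prop := ∃ a ∈ A, ∃ b ∈ B, a = b ∨ G.Adj a b

theorem Touch.symm {G : SimpleGraph V} {A B : Set V} (h : Touch G A B) : Touch G B A := by
  obtain ⟨a, ha, b, hb, h⟩ := h
  exact ⟨b, hb, a, ha, h.imp Eq.symm SimpleGraph.Adj.symm⟩

theorem Touch.mono {G : SimpleGraph V} {A B A' B' : Set V} (h : Touch G A B) (hA : A ⊆ A')
    (hB : B ⊆ B') : Touch G A' B' := by
  obtain ⟨a, ha, b, hb, h⟩ := h
  exact ⟨a, hA ha, b, hB hb, h⟩

theorem conn_singleton (G : SimpleGraph V) (v : V) : Conn G {v} := by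
  refine ⟨⟨v, rfl⟩, fun A hA hne _ => ?_⟩
  obtain ⟨a, ha⟩ := hne
  have : a = v := hA ha
  subst this
  exact Set.Subset.antisymm hA (Set.singleton_subset_iff.2 ha)

/-- A closed piece of a connected set inside a bigger set is everything or nothing. -/
theorem Conn.dichotomy {G : SimpleGraph V} {S A : Set V} (hS : Conn G S)
    (h : ∀ a ∈ A, a ∈ S → ∀ b ∈ S, G.Adj a b → b ∈ A) : S ⊆ A ∨ Disjoint S A := by
  by_cases hne : (S ∩ A).Nonempty
  · left
    have := hS.2 (S ∩ A) Set.inter_subset_left hne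
      (fun a ha b hb hab => ⟨hb, h a ha.2 ha.1 b hb hab⟩)
    rw [← this]
    exact Set.inter_subset_right
  · right
    rw [Set.disjoint_iff_inter_eq_empty]
    exact Set.not_nonempty_iff_eq_empty.1 hne

/-- Union of a connected set with connected sets touching it. -/
theorem Conn.union_family {G : SimpleGraph V} {S : Set V} (hS : Conn G S) (M : Set (Set V))
    (hM : ∀ A ∈ M, Conn G A) (ht : ∀ A ∈ M, Touch G S A) : Conn G (S ∪ ⋃₀ M) := by
  refine ⟨hS.1.mono Set.subset_union_left, fun A hA hne hcl => ?_⟩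
  have key : ∀ B ∈ M, B ⊆ A ∨ Disjoint B A := fun B hB =>
    (hM B hB).dichotomy (fun a ha _ b hb hab =>
      hcl a ha b (Or.inr ⟨B, hB, hb⟩) hab)
  have key0 : S ⊆ A ∨ Disjoint S A := hS.dichotomy (fun a ha _ b hb hab =>
      hcl a ha b (Or.inl hb) hab)
  rcases key0 with h0 | h0
  · apply Set.Subset.antisymm hA
    rintro x (hx | ⟨B, hB, hx⟩)
    · exact h0 hx
    · rcases key B hB with h | h
      · exact h hx
      · exfalso
        obtain ⟨s, hs, b, hb, hsb⟩ := ht B hB
        rcases hsb with rfl | hsb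
        · exact Set.disjoint_left.1 h hb (h0 hs)
        · exact Set.disjoint_left.1 h hb (hcl s (h0 hs) b (Or.inr ⟨B, hB, hb⟩) hsb)
  · exfalso
    obtain ⟨x, hx⟩ := hne
    rcases hA hx with hx' | ⟨B, hB, hx'⟩
    · exact Set.disjoint_left.1 h0 hx' hx
    · rcases key B hB with h | h
      · obtain ⟨s, hs, b, hb, hsb⟩ := ht B hB
        rcases hsb with rfl | hsb
        · exact Set.disjoint_left.1 h0 hs (h hb)
        · exact Set.disjoint_left.1 h0 hs (hcl b (h hb) s (Or.inl hs) hsb.symm)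
      · exact Set.disjoint_left.1 h hx' hx

theorem Conn.union {G : SimpleGraph V} {S T : Set V} (hS : Conn G S) (hT : Conn G T)
    (h : Touch G S T) : Conn G (S ∪ T) := by
  have := hS.union_family {T} (by simpa using hT) (by simpa using h)
  simpa using this

/-- Every vertex of a set lies in a connected component of the set. -/
theorem exists_component [Finite V] (G : SimpleGraph V) (S : Set V) (x : V) (hx : x ∈ S) :
    ∃ C : Set V, C ⊆ S ∧ x ∈ C ∧ Conn G C ∧ ∀ c ∈ C, ∀ y ∈ S, G.Adj c y → y ∈ C := by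
  classical
  obtain ⟨C, ⟨hCS, hxC, hC⟩, hmax⟩ := Set.Finite.exists_maximalFor (fun C : Set V => C)
    {C : Set V | C ⊆ S ∧ x ∈ C ∧ Conn G C} (Set.toFinite _)
    ⟨{x}, Set.singleton_subset_iff.2 hx, rfl, conn_singleton G x⟩
  refine ⟨C, hCS, hxC, hC, fun c hc y hy hcy => ?_⟩
  have h1 : Conn G (C ∪ {y}) := hC.union (conn_singleton G y) ⟨c, hc, y, rfl, Or.inr hcy⟩
  have h2 := hmax (j := C ∪ {y}) ⟨Set.union_subset hCS (Set.singleton_subset_iff.2 hy),
    Or.inl hxC, h1⟩ Set.subset_union_left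
  exact h2 (Or.inr rfl)

/-- From Mathlib connectivity of the induced graph to the cut form. -/
theorem conn_of_induce {G : SimpleGraph V} {S : Set V} (h : (G.induce S).Connected) :
    Conn G S := by
  obtain ⟨⟨x, hx⟩⟩ := h.nonempty
  refine ⟨⟨x, hx⟩, fun A hA hne hcl => ?_⟩
  obtain ⟨a, ha⟩ := hne
  apply Set.Subset.antisymm hA
  intro y hy
  obtain ⟨w⟩ := h.preconnected ⟨a, hA ha⟩ ⟨y, hy⟩
  have : ∀ (u v : S) (w : (G.induce S).Walk u v), (u : V) ∈ A → (v : V) ∈ A := by
    intro u v w
    induction w with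
    | nil => exact id
    | cons hadj _ ih =>
      intro hu
      exact ih (hcl _ hu _ (Subtype.coe_prop _) hadj)
  exact this _ _ w ha

/-- **Helly property of subtrees.** -/
theorem helly_tree (n : ℕ) : ∀ (ι : Type) [Fintype ι] (T : SimpleGraph ι), T.IsTree →
    Fintype.card ι = n → ∀ M : Set (Set ι), (∀ A ∈ M, Conn T A) →
    (∀ A ∈ M, ∀ B ∈ M, (A ∩ B).Nonempty) → ∃ i, ∀ A ∈ M, i ∈ A := by
  classical
  induction n with
  | zero =>
    intro ι _ T hT hcard
    exfalso
    obtain ⟨i⟩ := hT.connected.nonempty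
    exact (Fintype.card_pos_iff.2 ⟨i⟩).ne' hcard
  | succ n ih =>
    intro ι _ T hT hcard M hconn hint
    by_cases hn : Nontrivial ι
    · obtain ⟨l, hl⟩ := hT.exists_vert_degree_one_of_nontrivial
      by_cases hlM : ({l} : Set ι) ∈ M
      · refine ⟨l, fun A hA => ?_⟩
        obtain ⟨x, hx1, hx2⟩ := hint _ hlM A hA
        rwa [← Set.mem_singleton_iff.1 hx1]
      -- the unique neighbour of the leaf
      obtain ⟨m, hm, hmu⟩ := SimpleGraph.degree_eq_one_iff_existsUnique_adj.1 hl
      have hml : m ≠ l := hm.ne'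
      have hmem : ∀ A ∈ M, l ∈ A → m ∈ A := by
        intro A hA hlA
        by_contra hmA
        have := (hconn A hA).2 {l} (Set.singleton_subset_iff.2 hlA) ⟨l, rfl⟩ (by
          rintro a rfl b hb hab
          exact absurd (hmu b hab ▸ hb) hmA)
        exact hlM (this ▸ hA)
      have hT' : (T.induce {l}ᶜ).IsTree :=
        ⟨hT.connected.induce_compl_singleton_of_degree_eq_one hl, hT.isAcyclic.induce _⟩
      have hcard' : Fintype.card ({l}ᶜ : Set ι) = n := by
        rw [Fintype.card_compl_set, hcard]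
        simp
      obtain ⟨i, hi⟩ := ih ({l}ᶜ : Set ι) (T.induce {l}ᶜ) hT' hcard'
        ((fun A : Set ι => (Subtype.val ⁻¹' A : Set ({l}ᶜ : Set ι))) '' M) (by
          rintro _ ⟨A, hA, rfl⟩
          have hAc := hconn A hA
          have hne : ∃ x ∈ A, x ≠ l := by
            by_contra hcon
            push Not at hcon
            obtain ⟨y, hy⟩ := hAc.1
            have : A = {l} := by
              apply Set.Subset.antisymm
              · intro z hz; exact hcon z hz
              · rw [Set.singleton_subset_iff, ← hcon y hy]; exact hy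
            exact hlM (this ▸ hA)
          obtain ⟨x, hx, hxl⟩ := hne
          refine ⟨⟨⟨x, hxl⟩, hx⟩, fun B hB hBne hcl => ?_⟩
          -- lift `B` to `ι`
          have hlift : (Subtype.val '' B ∪ {y | y = l ∧ l ∈ A ∧ ∃ z ∈ B, (z : ι) = m}) = A := by
            apply hAc.2
            · rintro y (⟨z, hz, rfl⟩ | ⟨rfl, hlA, _⟩)
              · exact hB hz
              · exact hlA
            · obtain ⟨z, hz⟩ := hBne
              exact ⟨z, Or.inl ⟨z, hz, rfl⟩⟩
            · rintro a (⟨z, hz, rfl⟩ | ⟨rfl, hlA, z, hz, hzm⟩) b hb hab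
              · by_cases hbl : b = l
                · subst hbl
                  right
                  exact ⟨rfl, hb, z, hz, hmu _ hab.symm⟩
                · left
                  refine ⟨⟨b, hbl⟩, hcl z hz ⟨b, hbl⟩ hb ?_, rfl⟩
                  exact hab
              · left
                exact ⟨z, hz, by rw [hzm]; exact (hmu _ hab).symm⟩
          ext z
          constructor
          · intro hz; exact hB hz
          · intro hz
            have hz' : (z : ι) ∈ (Subtype.val '' B ∪ {y | y = l ∧ l ∈ A ∧ ∃ z ∈ B, (z : ι) = m}) := by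
              rw [hlift]; exact hz
            rcases hz' with ⟨w, hw, hwz⟩ | ⟨hzl, _⟩
            · rwa [← Subtype.ext hwz]
            · exact absurd hzl z.2) (by
          rintro _ ⟨A, hA, rfl⟩ _ ⟨B, hB, rfl⟩
          obtain ⟨x, hxA, hxB⟩ := hint A hA B hB
          by_cases hxl : x = l
          · subst hxl
            exact ⟨⟨m, hml⟩, hmem A hA hxA, hmem B hB hxB⟩
          · exact ⟨⟨x, hxl⟩, hxA, hxB⟩)
      refine ⟨i, fun A hA => hi _ ⟨A, hA, rfl⟩⟩
    · rw [not_nontrivial_iff_subsingleton] at hn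
      obtain ⟨i⟩ := hT.connected.nonempty
      refine ⟨i, fun A hA => ?_⟩
      obtain ⟨y, hy⟩ := (hconn A hA).1
      rwa [Subsingleton.elim i y]

/-- The trace of a connected set in a tree decomposition is connected. -/
theorem trace_conn {G : SimpleGraph V} (D : TreeDecomp G) {S : Set V} (hS : Conn G S) :
    Conn D.T {i | ∃ x ∈ S, x ∈ D.bag i} := by
  have hx : ∀ x, Conn D.T {i | x ∈ D.bag i} := fun x => conn_of_induce (D.conn x)
  constructor
  · obtain ⟨x, hxS⟩ := hS.1
    obtain ⟨i, hi⟩ := D.cover x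
    exact ⟨i, x, hxS, hi⟩
  · intro A hA hne hcl
    have hdi : ∀ x ∈ S, {i | x ∈ D.bag i} ⊆ A ∨ Disjoint {i | x ∈ D.bag i} A := fun x hxS =>
      (hx x).dichotomy (fun a ha _ b hb hab => hcl a ha b ⟨x, hxS, hb⟩ hab)
    have hfull : {x | x ∈ S ∧ {i | x ∈ D.bag i} ⊆ A} = S := by
      apply hS.2
      · exact fun x hx => hx.1
      · obtain ⟨i, hi⟩ := hne
        obtain ⟨x, hxS, hxi⟩ := hA hi
        refine ⟨x, hxS, ?_⟩
        rcases hdi x hxS with h | h
        · exact h
        · exact absurd hi (Set.disjoint_left.1 h hxi)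
      · rintro a ⟨haS, ha⟩ b hb hab
        refine ⟨hb, ?_⟩
        rcases hdi b hb with h | h
        · exact h
        · exfalso
          obtain ⟨i, hai, hbi⟩ := D.edge a b hab
          exact Set.disjoint_left.1 h hbi (ha hai)
    apply Set.Subset.antisymm hA
    rintro i ⟨x, hxS, hxi⟩
    have : x ∈ {x | x ∈ S ∧ {i | x ∈ D.bag i} ⊆ A} := by rw [hfull]; exact hxS
    exact this.2 hxi

/-- **Bramble lemma.** A family of pairwise touching connected sets is hit by one bag. -/
theorem bramble {G : SimpleGraph V} (D : TreeDecomp G) (M : Set (Set V))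
    (hM : ∀ A ∈ M, Conn G A) (ht : ∀ A ∈ M, ∀ B ∈ M, Touch G A B) :
    ∃ i, ∀ A ∈ M, ∃ x ∈ A, x ∈ D.bag i := by
  classical
  have := D.fin
  have := Fintype.ofFinite D.ι
  obtain ⟨i, hi⟩ := helly_tree (Fintype.card D.ι) D.ι D.T D.isTree rfl
    ((fun A : Set V => {i | ∃ x ∈ A, x ∈ D.bag i}) '' M) (by
      rintro _ ⟨A, hA, rfl⟩
      exact trace_conn D (hM A hA)) (by
      rintro _ ⟨A, hA, rfl⟩ _ ⟨B, hB, rfl⟩
      obtain ⟨a, ha, b, hb, hab⟩ := ht A hA B hB
      rcases hab with rfl | hab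
      · obtain ⟨i, hi⟩ := D.cover a
        exact ⟨i, ⟨a, ha, hi⟩, ⟨a, hb, hi⟩⟩
      · obtain ⟨i, hai, hbi⟩ := D.edge a b hab
        exact ⟨i, ⟨a, ha, hai⟩, ⟨b, hb, hbi⟩⟩)
  exact ⟨i, fun A hA => hi _ ⟨A, hA, rfl⟩⟩

end Pool.Agent.TDPath
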