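import Mathlib

/-!
Definitions for treewidth, treedepth and induced-path-free graphs.
-/

namespace Pool.Agent.TDPath

/-- A tree decomposition of a graph `G`: a finite tree `T` whose nodes carry bags of vertices, such
that every vertex and every edge is covered by a bag, and for every vertex the nodes whose bag
contains it induce a connected subgraph of `T`. -/
structure TreeDecomp {V : Type} (G : SimpleGraph V) where
  /-- the nodes -/
  ι : Type
  /-- finitely many nodes -/
  fin : Finite ι
  /-- the tree -/
  T : SimpleGraph ι
  /-- it is a tree -/
  isTree : T.IsTree
  /-- the bags -/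
  bag : ι → Finset V
  /-- every vertex is in a bag -/
  cover : ∀ v, ∃ i, v ∈ bag i
  /-- every edge is in a bag -/
  edge : ∀ u v, G.Adj u v → ∃ i, u ∈ bag i ∧ v ∈ bag i
  /-- connectivity -/
  conn : ∀ v, (T.induce {i | v ∈ bag i}).Connected

/-- The treewidth of `G`: the least `w` such that some tree decomposition of `G` has all its bags of
size at most `w + 1`. -/
noncomputable def treewidth {V : Type} (G : SimpleGraph V) : ℕ :=
  sInf {w | ∃ D : TreeDecomp G, ∀ i, (D.bag i).card ≤ w + 1}

/-- A rooted forest on the vertex set `V`, given by its relation `anc u v`, which says that `u` is an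
ancestor of `v` or equal to `v`: a partial order in which the ancestors of every vertex form a
chain. -/
structure RootedForest (V : Type) where
  /-- `u` is an ancestor of `v`, or `u = v` -/
  anc : V → V → Prop
  refl : ∀ v, anc v v
  antisymm : ∀ u v, anc u v → anc v u → u = v
  trans : ∀ u v w, anc u v → anc v w → anc u w
  chain : ∀ u w v, anc u v → anc w v → anc u w ∨ anc w u

/-- The treedepth of `G`: the least `h` such that there is a rooted forest on the vertex set of `G`
in which every edge of `G` joins a vertex to one of its ancestors, and every vertex has at most `h`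
ancestors, itself included (that is, every root-to-leaf path has at most `h` vertices). -/
noncomputable def treedepth {V : Type} (G : SimpleGraph V) : ℕ :=
  sInf {h | ∃ F : RootedForest V, (∀ u v, G.Adj u v → F.anc u v ∨ F.anc v u) ∧
    ∀ v, {u | F.anc u v}.ncard ≤ h}

/-- `G` is `P_t`-free: no induced subgraph of `G` is isomorphic to the path on `t` vertices. -/
def PathFree {V : Type} (t : ℕ) (G : SimpleGraph V) : Prop :=
  IsEmpty (SimpleGraph.pathGraph t ↪g G)

/-- The set of all treedepths of finite `P_t`-free graphs of treewidth at most `k`; its maximum is
the function `h(k, t)`. -/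
def depths (k t : ℕ) : Set ℕ :=
  {d | ∃ (V : Type) (_ : Finite V) (G : SimpleGraph V),
    treewidth G ≤ k ∧ PathFree t G ∧ treedepth G = d}

end Pool.Agent.TDPath
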