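import Pool.Agent.Lib.MP_04d34b_co.Conn

/-!
Relative elimination: the game in which connected targets have to be destroyed, hubs, and the main
recursion.
-/

namespace Pool.Agent.TDPath

variable {V : Type}

/-- `Elim G F n W`: by deleting at most `n` vertices in depth from `W` one reaches pieces which
contain no target from `F`. -/
def Elim (G : SimpleGraph V) (F : Set (Set V)) : ℕ → Set V → Prop
  | 0, W => ∀ A ∈ F, ¬ A ⊆ W
  | n + 1, W => ∀ C : Set V, C ⊆ W → Conn G C → ∃ v, Elim G F n (C \ {v})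

theorem Elim.mono_set {G : SimpleGraph V} {F : Set (Set V)} {n : ℕ} {W W' : Set V}
    (h : Elim G F n W) (hW : W' ⊆ W) : Elim G F n W' := by
  cases n with
  | zero => exact fun A hA hAW => h A hA (hAW.trans hW)
  | succ n => exact fun C hC => h C (hC.trans hW)

theorem Elim.succ {G : SimpleGraph V} {F : Set (Set V)} : ∀ {n : ℕ} {W : Set V},
    Elim G F n W → Elim G F (n + 1) W
  | 0, W, h => fun C hC hc => by
      obtain ⟨v, _⟩ := hc.1
      exact ⟨v, Elim.mono_set h (Set.sdiff_subset.trans hC)⟩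
  | n + 1, W, h => fun C hC hc => by
      obtain ⟨v, hv⟩ := h C hC hc
      exact ⟨v, hv.succ⟩

theorem Elim.mono {G : SimpleGraph V} {F : Set (Set V)} {n m : ℕ} {W : Set V}
    (h : Elim G F n W) (hnm : n ≤ m) : Elim G F m W := by
  induction hnm with
  | refl => exact h
  | step _ ih => exact ih.succ

/-- Deleting a finite set. -/
theorem Elim.kill {G : SimpleGraph V} {F : Set (Set V)} (Y : Finset V) : ∀ {n : ℕ} {W : Set V},
    Elim G F n (W \ Y) → Elim G F (n + Y.card) W := by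
  classical
  induction Y using Finset.induction_on with
  | empty => intro n W h; simpa using h
  | insert y Y hy ih =>
    intro n W h
    rw [Finset.card_insert_of_notMem hy, ← add_assoc]
    intro C hC _
    refine ⟨y, ih ?_⟩
    apply h.mono_set
    rintro x ⟨⟨hxC, hxy⟩, hxY⟩
    refine ⟨hC hxC, ?_⟩
    simp only [Finset.coe_insert, Set.mem_insert_iff, not_or]
    exact ⟨hxy, hxY⟩

/-- It is enough to treat connected pieces. -/
theorem Elim.of_conn {G : SimpleGraph V} {F : Set (Set V)} (hF : ∀ A ∈ F, Conn G A) {n : ℕ}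
    {W : Set V} (h : ∀ C ⊆ W, Conn G C → Elim G F n C) : Elim G F n W := by
  cases n with
  | zero =>
    intro A hA hAW
    exact h A hAW (hF A hA) A hA le_rfl
  | succ n =>
    intro C hC hc
    exact h C hC hc C le_rfl hc

/-- Two-step elimination. -/
theorem Elim.trans {G : SimpleGraph V} {F K : Set (Set V)} (hF : ∀ A ∈ F, Conn G A) {r : ℕ} :
    ∀ {n : ℕ} {S : Set V}, (∀ C ⊆ S, Conn G C → (∀ A ∈ K, ¬ A ⊆ C) → Elim G F r C) →
    Elim G K n S → Elim G F (n + r) S
  | 0, S, h, hK => by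
      rw [zero_add]
      exact Elim.of_conn hF fun C hC hc => h C hC hc fun A hA hAC => hK A hA (hAC.trans hC)
  | n + 1, S, h, hK => by
      rw [Nat.add_right_comm]
      intro C hC hc
      obtain ⟨v, hv⟩ := hK C hC hc
      exact ⟨v, Elim.trans hF (fun C' hC' => h C' (hC'.trans (Set.sdiff_subset.trans hC))) hv⟩

/-- Two targets that are far apart inside some connected piece of `S`. -/
def Far (G : SimpleGraph V) (F : Set (Set V)) (p : ℕ) (S : Set V) : Prop :=
  ∃ C ⊆ S, Conn G C ∧ ∃ A ∈ F, ∃ B ∈ F, A ⊆ C ∧ B ⊆ C ∧ ∃ L : V → ℕ,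
    (∀ x ∈ C, ∀ y ∈ C, G.Adj x y → L x ≤ L y + 1) ∧ (∀ x ∈ A, L x = 0) ∧ (∀ x ∈ B, p ≤ L x)

theorem Far.mono_set {G : SimpleGraph V} {F : Set (Set V)} {p : ℕ} {S S' : Set V}
    (h : Far G F p S) (hS : S ⊆ S') : Far G F p S' := by
  obtain ⟨C, hC, h⟩ := h
  exact ⟨C, hC.trans hS, h⟩

/-- Pairwise touching targets are destroyed by one bag. -/
theorem elim_of_touch {G : SimpleGraph V} (D : TreeDecomp G) {k : ℕ}
    (hk : ∀ i, (D.bag i).card ≤ k + 1) {F : Set (Set V)} (hF : ∀ A ∈ F, Conn G A) {S : Set V}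
    (h : ∀ A ∈ F, ∀ B ∈ F, A ⊆ S → B ⊆ S → Touch G A B) : Elim G F (k + 1) S := by
  obtain ⟨i, hi⟩ := bramble D {A | A ∈ F ∧ A ⊆ S} (fun A hA => hF A hA.1)
    (fun A hA B hB => h A hA.1 B hB.1 hA.2 hB.2)
  have h0 : Elim G F 0 (S \ (D.bag i : Set V)) := by
    intro A hA hAS
    obtain ⟨x, hxA, hxi⟩ := hi A ⟨hA, fun y hy => (hAS hy).1⟩
    exact (hAS hxA).2 hxi
  have h1 := Elim.kill (D.bag i) h0
  exact h1.mono (by have := hk i; omega)

/-- More than `k + 1` pairwise disjoint connected sets, each touching all targets in `S`. -/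
theorem elim_of_hubs {G : SimpleGraph V} (D : TreeDecomp G) {k : ℕ}
    (hk : ∀ i, (D.bag i).card ≤ k + 1) {F : Set (Set V)} (hF : ∀ A ∈ F, Conn G A) {S : Set V}
    (Z : Fin (k + 2) → Set V) (hZ : ∀ j, Conn G (Z j))
    (hd : ∀ i j, i ≠ j → Disjoint (Z i) (Z j))
    (ht : ∀ j, ∀ A ∈ F, A ⊆ S → Touch G (Z j) A) : Elim G F (k + 1) S := by
  classical
  obtain ⟨i, hi⟩ := bramble D {B | ∃ j, ∃ A ∈ F, A ⊆ S ∧ B = Z j ∪ A} (by
      rintro _ ⟨j, A, hA, hAS, rfl⟩
      exact (hZ j).union (hF A hA) (ht j A hA hAS)) (by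
      rintro _ ⟨j, A, hA, hAS, rfl⟩ _ ⟨j', A', hA', hAS', rfl⟩
      exact (ht j A' hA' hAS').mono Set.subset_union_left Set.subset_union_right)
  -- some hub avoids the bag
  have hj : ∃ j, ∀ x ∈ Z j, x ∉ D.bag i := by
    by_contra hcon
    push Not at hcon
    choose f hf1 hf2 using hcon
    have hinj : Function.Injective f := by
      intro a b hab
      by_contra hne
      exact Set.disjoint_left.1 (hd a b hne) (hf1 a) (hab ▸ hf1 b)
    have h1 : (Finset.univ.image f).card = k + 2 := by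
      rw [Finset.card_image_of_injective _ hinj, Finset.card_univ, Fintype.card_fin]
    have h2 : Finset.univ.image f ⊆ D.bag i := by
      intro x hx
      obtain ⟨j, _, rfl⟩ := Finset.mem_image.1 hx
      exact hf2 j
    have := Finset.card_le_card h2
    have := hk i
    omega
  obtain ⟨j, hj⟩ := hj
  have h0 : Elim G F 0 (S \ (D.bag i : Set V)) := by
    intro A hA hAS
    obtain ⟨x, hxA, hxi⟩ := hi _ ⟨j, A, hA, fun y hy => (hAS hy).1, rfl⟩
    rcases hxA with hx | hx
    · exact hj x hx hxi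
    · exact (hAS hx).2 hxi
  have h1 := Elim.kill (D.bag i) h0
  exact h1.mono (by have := hk i; omega)

/-- `n` pairwise disjoint connected sets outside `S`, each touching all targets in `S`. -/
def Hubs (G : SimpleGraph V) (F : Set (Set V)) (S : Set V) (n : ℕ) : Prop :=
  ∃ Z : Fin n → Set V, (∀ j, Conn G (Z j)) ∧ (∀ j, Disjoint (Z j) S) ∧
    (∀ i j, i ≠ j → Disjoint (Z i) (Z j)) ∧ ∀ j, ∀ A ∈ F, A ⊆ S → Touch G (Z j) A

theorem Hubs.mono_set {G : SimpleGraph V} {F : Set (Set V)} {S S' : Set V} {n : ℕ}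
    (h : Hubs G F S n) (hS : S' ⊆ S) : Hubs G F S' n := by
  obtain ⟨Z, h1, h2, h3, h4⟩ := h
  exact ⟨Z, h1, fun j => (h2 j).mono_right hS, h3, fun j A hA hAS => h4 j A hA (hAS.trans hS)⟩

theorem Hubs.cons {G : SimpleGraph V} {F : Set (Set V)} {S S' Z' : Set V} {n : ℕ}
    (h : Hubs G F S n) (hS : S' ⊆ S) (hZ : Conn G Z') (hZS : Z' ⊆ S) (hd : Disjoint Z' S')
    (ht : ∀ A ∈ F, A ⊆ S' → Touch G Z' A) : Hubs G F S' (n + 1) := by
  obtain ⟨Z, h1, h2, h3, h4⟩ := h
  refine ⟨Fin.cons Z' Z, ?_, ?_, ?_, ?_⟩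
  · intro j
    refine Fin.cases ?_ (fun j => ?_) j
    · simpa using hZ
    · simpa using h1 j
  · intro j
    refine Fin.cases ?_ (fun j => ?_) j
    · simpa using hd
    · simpa using (h2 j).mono_right hS
  · intro i j
    refine Fin.cases ?_ (fun i => ?_) i <;> refine Fin.cases ?_ (fun j => ?_) j
    · intro h; exact absurd rfl h
    · intro _
      simpa using ((h2 j).mono_right hZS).symm
    · intro _
      simpa using (h2 i).mono_right hZS
    · intro hij
      simpa using h3 i j (fun h => hij (by rw [h]))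
  · intro j A hA hAS
    refine Fin.cases ?_ (fun j => ?_) j
    · simpa using ht A hA hAS
    · simpa using h4 j A hA (hAS.trans hS)

/-- Removing the part of a complement which does not contain the other set. -/
theorem conn_diff_of_minimal {G : SimpleGraph V} {C S T : Set V} (hC : Conn G C)
    (hS : Conn G S) (hT : Conn G T) (hSC : S ⊆ C) (hTC : T ⊆ C) (hST : Disjoint S T)
    (hmin : ∀ C' ⊆ C, Conn G C' → S ⊆ C' → T ⊆ C' → C' = C) : Conn G (C \ S) := by
  have hTD : T ⊆ C \ S := fun x hx => ⟨hTC hx, fun h => Set.disjoint_left.1 hST h hx⟩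
  -- a piece of `C \ S` closed in `C \ S` and disjoint from `T` is empty
  have key : ∀ A : Set V, A ⊆ C \ S → Disjoint A T →
      (∀ a ∈ A, ∀ b ∈ C \ S, G.Adj a b → b ∈ A) → A = ∅ := by
    intro A hA hAT hcl
    by_contra hne
    have hne' : A.Nonempty := Set.nonempty_iff_ne_empty.2 hne
    have hconn : Conn G (C \ A) := by
      constructor
      · obtain ⟨s, hs⟩ := hS.1
        exact ⟨s, hSC hs, fun h => (hA h).2 hs⟩
      · intro B hB hBne hBcl
        have hSB : S ⊆ B ∨ Disjoint S B := hS.dichotomy (fun a ha _ b hb hab =>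
          hBcl a ha b ⟨hSC hb, fun h => (hA h).2 hb⟩ hab)
        rcases hSB with hSB | hSB
        · -- the rest is closed in `C`
          by_contra hBC
          obtain ⟨x, hx, hxB⟩ : ∃ x ∈ C \ A, x ∉ B := by
            by_contra hcon
            push Not at hcon
            exact hBC (Set.Subset.antisymm hB hcon)
          have := hC.2 ((C \ A) \ B) (Set.sdiff_subset.trans Set.sdiff_subset) ⟨x, hx, hxB⟩ (by
            rintro a ⟨⟨haC, haA⟩, haB⟩ b hb hab
            have haS : a ∉ S := fun h => haB (hSB h)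
            refine ⟨⟨hb, fun hbA => haA (hcl b hbA a ⟨haC, haS⟩ hab.symm)⟩, fun hbB => ?_⟩
            exact haB (hBcl b hbB a ⟨haC, haA⟩ hab.symm))
          obtain ⟨s, hs⟩ := hS.1
          have hs' : s ∈ (C \ A) \ B := by rw [this]; exact hSC hs
          exact hs'.2 (hSB hs)
        · exfalso
          have := hC.2 B (hB.trans Set.sdiff_subset) hBne (by
            intro a ha b hb hab
            have haS : a ∉ S := fun h => Set.disjoint_left.1 hSB h ha
            refine hBcl a ha b ⟨hb, fun hbA => (hB ha).2 (hcl b hbA a ⟨(hB ha).1, haS⟩ hab.symm)⟩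
              hab)
          obtain ⟨a, ha⟩ := hne'
          have : a ∈ B := by rw [this]; exact (hA ha).1
          exact (hB this).2 ha
    have := hmin (C \ A) Set.sdiff_subset hconn (fun x hx => ⟨hSC hx, fun h => (hA h).2 hx⟩)
      (fun x hx => ⟨hTC hx, fun h => Set.disjoint_left.1 hAT h hx⟩)
    obtain ⟨a, ha⟩ := hne'
    have ha' : a ∈ C \ A := by rw [this]; exact (hA ha).1
    exact ha'.2 ha
  constructor
  · exact hT.1.mono hTD
  · intro A hA hne hcl
    have hTA : T ⊆ A ∨ Disjoint T A := hT.dichotomy (fun a ha _ b hb hab =>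
      hcl a ha b (hTD hb) hab)
    rcases hTA with hTA | hTA
    · have := key ((C \ S) \ A) Set.sdiff_subset
        (Set.disjoint_left.2 fun x hx hxT => hx.2 (hTA hxT)) (by
        rintro a ⟨ha, haA⟩ b hb hab
        exact ⟨hb, fun hbA => haA (hcl b hbA a ha hab.symm)⟩)
      apply Set.Subset.antisymm hA
      rw [← Set.sdiff_eq_empty]
      exact this
    · have := key A hA hTA.symm hcl
      rw [this] at hne
      exact absurd hne Set.not_nonempty_empty

/-- A minimal connected set containing two given ones. -/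
theorem exists_min_conn [Finite V] {G : SimpleGraph V} {C S T : Set V} (hC : Conn G C)
    (hS : Conn G S) (hT : Conn G T) (hSC : S ⊆ C) (hTC : T ⊆ C) (hST : Disjoint S T) :
    ∃ C' ⊆ C, Conn G C' ∧ S ⊆ C' ∧ T ⊆ C' ∧ Conn G (C' \ S) ∧ Conn G (C' \ T) := by
  obtain ⟨C', ⟨h1, h2, h3, h4⟩, hmin⟩ := Set.Finite.exists_minimalFor (fun C : Set V => C)
    {C' : Set V | C' ⊆ C ∧ Conn G C' ∧ S ⊆ C' ∧ T ⊆ C'} (Set.toFinite _)
    ⟨C, le_rfl, hC, hSC, hTC⟩
  have hmin' : ∀ C'' ⊆ C', Conn G C'' → S ⊆ C'' → T ⊆ C'' → C'' = C' := by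
    intro C'' hC'' h2' h3' h4'
    exact Set.Subset.antisymm hC'' (hmin ⟨hC''.trans h1, h2', h3', h4'⟩ hC'')
  exact ⟨C', h1, h2, h3, h4, conn_diff_of_minimal h2 hS hT h3 h4 hST hmin',
    conn_diff_of_minimal h2 hT hS h4 h3 hST.symm (fun C'' a b c d => hmin' C'' a b d c)⟩

end Pool.Agent.TDPath
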