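import Pool.Agent.Lib.MP_04d34b_co.Upper

/-!
The lower bound.
-/

namespace Pool.Agent.TDPath

/-- Parent form of tree decompositions of width at most `w`. -/
def PTD {V : Type} (G : SimpleGraph V) (w : ℕ) : Prop :=
  ∃ (ι : Type) (_ : Fintype ι) (_ : DecidableEq ι) (par : ι → ι) (r : ι) (rank : ι → ℕ)
    (bag : ι → Finset V),
    (∀ i, i ≠ r → rank (par i) < rank i) ∧ (∀ v, ∃ i, v ∈ bag i) ∧
    (∀ u v, G.Adj u v → ∃ i, u ∈ bag i ∧ v ∈ bag i) ∧
    (∀ v, ∃ t, v ∈ bag t ∧ ∀ i, v ∈ bag i → i = t ∨ (i ≠ r ∧ v ∈ bag (par i))) ∧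
    ∀ i, (bag i).card ≤ w + 1

/-- The tree of a parent function. -/
def parTree {ι : Type} (par : ι → ι) (r : ι) (rank : ι → ℕ)
    (h : ∀ i, i ≠ r → rank (par i) < rank i) : SimpleGraph ι where
  Adj x y := (x ≠ r ∧ par x = y) ∨ (y ≠ r ∧ par y = x)
  symm := ⟨fun _ _ h => h.symm⟩
  loopless := ⟨fun x hx => by
    rcases hx with ⟨h1, h2⟩ | ⟨h1, h2⟩
    · have := h x h1; rw [h2] at this; exact lt_irrefl _ this
    · have := h x h1; rw [h2] at this; exact lt_irrefl _ this⟩

theorem parTree_isTree {ι : Type} [Fintype ι] [DecidableEq ι] (par : ι → ι) (r : ι)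
    (rank : ι → ℕ) (h : ∀ i, i ≠ r → rank (par i) < rank i) : (parTree par r rank h).IsTree := by
  rw [SimpleGraph.isTree_iff_connected_and_card]
  constructor
  · have : Nonempty ι := ⟨r⟩
    have key : ∀ n x, rank x = n → (parTree par r rank h).Reachable x r := by
      intro n
      induction n using Nat.strong_induction_on with
      | _ n ih =>
        intro x hx
        by_cases hxr : x = r
        · rw [hxr]
        · have h1 := ih (rank (par x)) (by rw [← hx]; exact h x hxr) (par x) rfl
          have h2 : (parTree par r rank h).Adj x (par x) := Or.inl ⟨hxr, rfl⟩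
          exact h2.reachable.trans h1
    exact ⟨fun x y => (key _ x rfl).trans (key _ y rfl).symm⟩
  · let f : {x : ι // x ≠ r} → (parTree par r rank h).edgeSet := fun x =>
      ⟨s(x.1, par x.1), Or.inl ⟨x.2, rfl⟩⟩
    have hf : Function.Bijective f := by
      constructor
      · rintro ⟨x, hx⟩ ⟨y, hy⟩ hxy
        have hxy' : s(x, par x) = s(y, par y) := congrArg Subtype.val hxy
        rcases Sym2.eq_iff.1 hxy' with ⟨h1, _⟩ | ⟨h1, h2⟩
        · exact Subtype.ext h1
        · exfalso
          have h3 := h x hx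
          have h4 := h y hy
          rw [h2] at h3
          rw [← h1] at h4
          omega
      · rintro ⟨e, he⟩
        induction e using Sym2.ind with
        | _ x y =>
          rcases he with ⟨h1, h2⟩ | ⟨h1, h2⟩
          · refine ⟨⟨x, h1⟩, Subtype.ext ?_⟩
            change s(x, par x) = s(x, y)
            rw [h2]
          · refine ⟨⟨y, h1⟩, Subtype.ext ?_⟩
            change s(y, par y) = s(x, y)
            rw [h2]
            exact Sym2.eq_swap
    rw [← Nat.card_eq_of_bijective f hf, Nat.card_eq_fintype_card, Nat.card_eq_fintype_card,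
      Fintype.card_subtype_compl, Fintype.card_subtype_eq]
    have : 0 < Fintype.card ι := Fintype.card_pos_iff.2 ⟨r⟩
    omega

theorem treewidth_le_of_PTD {V : Type} {G : SimpleGraph V} {w : ℕ} (h : PTD G w) :
    treewidth G ≤ w := by
  obtain ⟨ι, _, _, par, r, rank, bag, h1, h2, h3, h4, h5⟩ := h
  apply Nat.sInf_le
  refine ⟨⟨ι, inferInstance, parTree par r rank h1, parTree_isTree par r rank h1, bag, h2, h3,
    fun v => ?_⟩, h5⟩
  obtain ⟨t, ht, hti⟩ := h4 v
  have key : ∀ n (x : ι) (hx : x ∈ {i | v ∈ bag i}), rank x = n →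
      ((parTree par r rank h1).induce {i | v ∈ bag i}).Reachable ⟨x, hx⟩ ⟨t, ht⟩ := by
    intro n
    induction n using Nat.strong_induction_on with
    | _ n ih =>
      intro x hx hxn
      rcases hti x hx with rfl | ⟨hxr, hpar⟩
      · exact SimpleGraph.Reachable.refl _
      · have h6 := ih (rank (par x)) (by rw [← hxn]; exact h1 x hxr) (par x) hpar rfl
        have h7 : ((parTree par r rank h1).induce {i | v ∈ bag i}).Adj ⟨x, hx⟩ ⟨par x, hpar⟩ := by
          change (parTree par r rank h1).Adj x (par x)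
          exact Or.inl ⟨hxr, rfl⟩
        exact h7.reachable.trans h6
  have : Nonempty {i | v ∈ bag i} := ⟨⟨t, ht⟩⟩
  exact ⟨fun x y => (key _ x.1 x.2 rfl).trans (key _ y.1 y.2 rfl).symm⟩

/-- `B` together with `N` copies of `H` for every vertex `b` of `B`, all joined to `b`. -/
def hang {V W : Type} (B : SimpleGraph V) (H : SimpleGraph W) (N : ℕ) :
    SimpleGraph (V × Option (Fin N × W)) where
  Adj x y := match x, y with
    | (b, none), (b', none) => B.Adj b b'
    | (b, none), (b', some _) => b = b'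
    | (b, some _), (b', none) => b = b'
    | (b, some (j, h)), (b', some (j', h')) => b = b' ∧ j = j' ∧ H.Adj h h'
  symm := ⟨by
    rintro ⟨b, _ | ⟨j, h⟩⟩ ⟨b', _ | ⟨j', h'⟩⟩ hadj
    · exact hadj.symm
    · exact Eq.symm hadj
    · exact Eq.symm hadj
    · exact ⟨hadj.1.symm, hadj.2.1.symm, hadj.2.2.symm⟩⟩
  loopless := ⟨by
    rintro ⟨b, _ | ⟨j, h⟩⟩ hadj
    · exact B.loopless.irrefl _ hadj
    · exact H.loopless.irrefl _ hadj.2.2⟩

theorem PTD_hang {V W : Type} [Fintype V] [DecidableEq V] [DecidableEq W]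
    {B : SimpleGraph V} {H : SimpleGraph W} {N w₁ w₂ w : ℕ}
    (hB : PTD B w₁) (hH : PTD H w₂) (h₁ : w₁ ≤ w) (h₂ : w₂ + 1 ≤ w) : PTD (hang B H N) w := by
  classical
  obtain ⟨ι, _, _, par, r, rank, bag, a1, a2, a3, a4, a5⟩ := hB
  obtain ⟨κ, _, _, par', r', rank', bag', b1, b2, b3, b4, b5⟩ := hH
  choose top htop htop' using a4
  choose top' htop1 htop1' using b4
  have hM : ∀ i, rank i < Finset.univ.sup rank + 1 := fun i =>
    Nat.lt_succ_of_le (Finset.le_sup (f := rank) (Finset.mem_univ i))
  set M := Finset.univ.sup rank + 1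
  refine ⟨ι ⊕ (V × Fin N × κ), inferInstance, inferInstance,
    Sum.elim (fun i => Sum.inl (par i)) (fun x => if x.2.2 = r' then Sum.inl (top x.1) else
      Sum.inr (x.1, x.2.1, par' x.2.2)),
    Sum.inl r, Sum.elim rank (fun x => M + rank' x.2.2),
    Sum.elim (fun i => (bag i).image (fun b => (b, none)))
      (fun x => insert (x.1, none) ((bag' x.2.2).image (fun h => (x.1, some (x.2.1, h))))),
    ?_, ?_, ?_, ?_, ?_⟩
  · rintro (i | ⟨b, j, x⟩) hi
    · simp only [Sum.elim_inl]
      exact a1 i (fun h => hi (by rw [h]))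
    · simp only [Sum.elim_inr]
      split_ifs with h
      · simp only [Sum.elim_inl]
        have := hM (top b)
        omega
      · simp only [Sum.elim_inr]
        have := b1 x h
        omega
  · rintro ⟨b, _ | ⟨j, h⟩⟩
    · obtain ⟨i, hi⟩ := a2 b
      exact ⟨Sum.inl i, by simpa using hi⟩
    · obtain ⟨i, hi⟩ := b2 h
      exact ⟨Sum.inr (b, j, i), by simpa using hi⟩
  · rintro ⟨b, _ | ⟨j, h⟩⟩ ⟨b', _ | ⟨j', h'⟩⟩ hadj
    · obtain ⟨i, hi, hi'⟩ := a3 b b' hadj
      exact ⟨Sum.inl i, by simpa using hi, by simpa using hi'⟩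
    · obtain rfl : b = b' := hadj
      obtain ⟨i, hi⟩ := b2 h'
      exact ⟨Sum.inr (b, j', i), by simp, by simpa using hi⟩
    · obtain rfl : b = b' := hadj
      obtain ⟨i, hi⟩ := b2 h
      exact ⟨Sum.inr (b, j, i), by simpa using hi, by simp⟩
    · obtain ⟨rfl, rfl, hadj⟩ : b = b' ∧ j = j' ∧ H.Adj h h' := hadj
      obtain ⟨i, hi, hi'⟩ := b3 h h' hadj
      exact ⟨Sum.inr (b, j, i), by simpa using hi, by simpa using hi'⟩
  · rintro ⟨b, _ | ⟨j, h⟩⟩
    · refine ⟨Sum.inl (top b), by simpa using htop b, ?_⟩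
      rintro (i | ⟨b', j, x⟩) hi
      · have hi' : b ∈ bag i := by simpa using hi
        rcases htop' b i hi' with h | ⟨h, h'⟩
        · left; rw [h]
        · right
          refine ⟨fun h'' => h (Sum.inl_injective h''), ?_⟩
          simpa using h'
      · right
        have hb : b = b' := by simpa using hi
        subst hb
        refine ⟨by simp, ?_⟩
        simp only [Sum.elim_inr]
        split_ifs with h
        · simpa using htop b
        · simp
    · refine ⟨Sum.inr (b, j, top' h), by simpa using htop1 h, ?_⟩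
      rintro (i | ⟨b', j', x⟩) hi
      · simp at hi
      · have hi' : b' = b ∧ j' = j ∧ h ∈ bag' x := by
          simp only [Sum.elim_inr, Finset.mem_insert, Prod.mk.injEq, reduceCtorEq, and_false,
            Finset.mem_image, Option.some.injEq, false_or] at hi
          obtain ⟨y, hy, h1, h2, h3⟩ := hi
          exact ⟨h1, h2, h3 ▸ hy⟩
        obtain ⟨rfl, rfl, hx⟩ := hi'
        rcases htop1' h x hx with h' | ⟨h', h''⟩
        · left; rw [h']
        · right
          refine ⟨by simp, ?_⟩
          simp only [Sum.elim_inr, h', if_false]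
          simpa using h''
  · rintro (i | ⟨b, j, x⟩)
    · simp only [Sum.elim_inl]
      exact Finset.card_image_le.trans ((a5 i).trans (by omega))
    · simp only [Sum.elim_inr]
      refine (Finset.card_insert_le _ _).trans ?_
      have h1 := Finset.card_image_le (s := bag' x)
        (f := fun h => ((b, some (j, h)) : V × Option (Fin N × W)))
      have h2 := b5 x
      omega

/-- A rooted forest fits `G` if every edge joins comparable vertices. -/
def Fits {V : Type} (F : RootedForest V) (G : SimpleGraph V) : Prop :=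
  ∀ u v, G.Adj u v → F.anc u v ∨ F.anc v u

theorem exists_deep {V : Type} {G : SimpleGraph V} {F : RootedForest V} (hF : Fits F G) {d : ℕ}
    (hd : d ≤ treedepth G) (h1 : 1 ≤ d) : ∃ v, d ≤ {u | F.anc u v}.ncard := by
  by_contra hcon
  push Not at hcon
  have : treedepth G ≤ d - 1 := Nat.sInf_le ⟨F, hF, fun v => by have := hcon v; omega⟩
  omega

theorem exists_forest {V : Type} [Finite V] (G : SimpleGraph V) :
    ∃ F : RootedForest V, Fits F G ∧ ∀ v, {u | F.anc u v}.ncard ≤ treedepth G := by
  classical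
  have : Fintype V := Fintype.ofFinite V
  have hne : {h | ∃ F : RootedForest V, (∀ u v, G.Adj u v → F.anc u v ∨ F.anc v u) ∧
      ∀ v, {u | F.anc u v}.ncard ≤ h}.Nonempty := by
    let e := Fintype.equivFin V
    refine ⟨Nat.card V, ⟨fun u v => e u ≤ e v, fun _ => le_rfl,
      fun u v h1 h2 => e.injective (le_antisymm h1 h2), fun _ _ _ h1 h2 => h1.trans h2,
      fun u w _ _ _ => le_total _ _⟩, fun u v _ => le_total _ _, fun v => ?_⟩
    exact Set.ncard_le_card _
  obtain ⟨F, h1, h2⟩ := Nat.sInf_mem hne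
  exact ⟨F, h1, h2⟩

theorem treedepth_pos {V : Type} [Finite V] [Nonempty V] (G : SimpleGraph V) :
    1 ≤ treedepth G := by
  obtain ⟨F, _, h⟩ := exists_forest G
  obtain ⟨v⟩ := ‹Nonempty V›
  have h1 := h v
  have h2 : 0 < {u | F.anc u v}.ncard := (Set.ncard_pos (Set.toFinite _)).2 ⟨v, F.refl v⟩
  omega

/-- The complete graph has treedepth at least its order. -/
theorem treedepth_top (m : ℕ) : m ≤ treedepth (⊤ : SimpleGraph (Fin m)) := by
  classical
  rcases Nat.eq_zero_or_pos m with rfl | hm
  · exact Nat.zero_le _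
  obtain ⟨F, hF, h⟩ := exists_forest (⊤ : SimpleGraph (Fin m))
  have : Nonempty (Fin m) := ⟨⟨0, hm⟩⟩
  obtain ⟨v, hv⟩ := Finite.exists_max (fun v : Fin m => {u | F.anc u v}.ncard)
  have hall : {u | F.anc u v} = Set.univ := by
    ext u
    simp only [Set.mem_ofPred_eq, Set.mem_univ, iff_true]
    by_contra hu
    have hne : u ≠ v := fun h => hu (h ▸ F.refl v)
    have hvu : F.anc v u := (hF u v hne).resolve_left hu
    have hlt : {w | F.anc w v}.ncard < {w | F.anc w u}.ncard := by
      apply Set.ncard_lt_ncard _ (Set.toFinite _)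
      refine ⟨fun w hw => F.trans w v u hw hvu, fun h => hu (h (F.refl u))⟩
    exact absurd (hv u) (not_le.2 hlt)
  have h1 := h v
  rw [hall, Set.ncard_univ, Nat.card_eq_fintype_card, Fintype.card_fin] at h1
  exact h1

/-- Hanging many copies of `H` at every vertex of `B` adds the treedepths. -/
theorem treedepth_hang {V W : Type} [Finite V] [Finite W] {B : SimpleGraph V}
    {H : SimpleGraph W} {dB dH N : ℕ} (hB : dB ≤ treedepth B) (hH : dH ≤ treedepth H)
    (h1B : 1 ≤ dB) (h1H : 1 ≤ dH) (hN : Nat.card V * (dB + dH) < N) :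
    dB + dH ≤ treedepth (hang B H N) := by
  classical
  have : Fintype V := Fintype.ofFinite V
  by_contra hlt
  push Not at hlt
  obtain ⟨F, hF, hh⟩ := exists_forest (hang B H N)
  -- every vertex of `B` has a copy which has no ancestor of `B`
  have hcopy : ∀ b : V, ∃ j : Fin N, ∀ (x : W) (b' : V),
      ¬ F.anc (b, some (j, x)) (b', none) := by
    intro b
    by_contra hcon
    push Not at hcon
    choose x b' hx using hcon
    let A : Finset (V × Option (Fin N × W)) :=
      Finset.univ.biUnion (fun b' : V => (Set.toFinite {u | F.anc u (b', none)}).toFinset)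
    have hA : A.card ≤ Nat.card V * (dB + dH) := by
      refine Finset.card_biUnion_le.trans ?_
      rw [Nat.card_eq_fintype_card, ← Finset.card_univ, ← smul_eq_mul]
      apply Finset.sum_le_card_nsmul
      intro b' _
      rw [← Set.ncard_eq_toFinset_card]
      exact (hh _).trans hlt.le
    have hinj : Function.Injective (fun j : Fin N =>
        ((b, some (j, x j)) : V × Option (Fin N × W))) := by
      intro j j' hjj
      simp only [Prod.mk.injEq, Option.some.injEq] at hjj
      exact hjj.2.1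
    have hsub : Finset.univ.image (fun j : Fin N =>
        ((b, some (j, x j)) : V × Option (Fin N × W))) ⊆ A := by
      intro y hy
      obtain ⟨j, _, rfl⟩ := Finset.mem_image.1 hy
      refine Finset.mem_biUnion.2 ⟨b' j, Finset.mem_univ _, ?_⟩
      rw [Set.Finite.mem_toFinset]
      exact hx j
    have h3 := Finset.card_le_card hsub
    rw [Finset.card_image_of_injective _ hinj, Finset.card_univ, Fintype.card_fin] at h3
    omega
  -- the forest restricted to `B`
  let FB : RootedForest V := ⟨fun b b' => F.anc (b, none) (b', none), fun _ => F.refl _,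
    fun u v h1 h2 => by have := F.antisymm _ _ h1 h2; simpa using this,
    fun _ _ _ h1 h2 => F.trans _ _ _ h1 h2, fun _ _ _ h1 h2 => F.chain _ _ _ h1 h2⟩
  have hFB : Fits FB B := fun u v huv => hF (u, none) (v, none) huv
  obtain ⟨b, hb⟩ := exists_deep hFB hB h1B
  obtain ⟨j, hj⟩ := hcopy b
  let FH : RootedForest W := ⟨fun x y => F.anc (b, some (j, x)) (b, some (j, y)),
    fun _ => F.refl _,
    fun u v h1 h2 => by have := F.antisymm _ _ h1 h2; simpa using this,
    fun _ _ _ h1 h2 => F.trans _ _ _ h1 h2, fun _ _ _ h1 h2 => F.chain _ _ _ h1 h2⟩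
  have hFH : Fits FH H := fun u v huv =>
    hF (b, some (j, u)) (b, some (j, v)) ⟨rfl, rfl, huv⟩
  obtain ⟨x, hx⟩ := exists_deep hFH hH h1H
  have hbx : F.anc (b, none) (b, some (j, x)) :=
    (hF (b, none) (b, some (j, x)) rfl).resolve_right (hj x b)
  have hsub : (fun b' : V => ((b', none) : V × Option (Fin N × W))) '' {u | FB.anc u b} ∪
      (fun y : W => ((b, some (j, y)) : V × Option (Fin N × W))) '' {u | FH.anc u x} ⊆
      {u | F.anc u (b, some (j, x))} := by
    rintro _ (⟨b', hb', rfl⟩ | ⟨y, hy, rfl⟩)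
    · exact F.trans _ _ _ hb' hbx
    · exact hy
  have hdisj : Disjoint ((fun b' : V => ((b', none) : V × Option (Fin N × W))) '' {u | FB.anc u b})
      ((fun y : W => ((b, some (j, y)) : V × Option (Fin N × W))) '' {u | FH.anc u x}) := by
    rw [Set.disjoint_left]
    rintro _ ⟨b', _, rfl⟩ ⟨y, _, hy⟩
    simp at hy
  have h4 := Set.ncard_le_ncard hsub (Set.toFinite _)
  rw [Set.ncard_union_eq hdisj (Set.toFinite _) (Set.toFinite _),
    Set.ncard_image_of_injective _ (fun a a' h => by simpa using h),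
    Set.ncard_image_of_injective _ (fun a a' h => by simpa using h)] at h4
  have h5 := hh (b, some (j, x))
  omega

theorem pathFree_mono {V : Type} {G : SimpleGraph V} {t t' : ℕ} (h : PathFree t G)
    (ht : t ≤ t') : PathFree t' G := by
  refine ⟨fun e => h.false ?_⟩
  let f : SimpleGraph.pathGraph t ↪g SimpleGraph.pathGraph t' :=
    ⟨⟨Fin.castLE ht, Fin.castLE_injective ht⟩, by
      intro i j
      simp only [Function.Embedding.coeFn_mk, SimpleGraph.pathGraph_adj, Fin.val_castLE]⟩
  exact e.comp f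

/-- A sequence of truth values which is not constant changes between two neighbours. -/
theorem exists_change {n : ℕ} (P : ℕ → Prop) {a b : ℕ} (ha : a < n) (hb : b < n) (hPa : P a)
    (hPb : ¬ P b) : ∃ m, m + 1 < n ∧ ((P m ∧ ¬ P (m + 1)) ∨ (¬ P m ∧ P (m + 1))) := by
  by_contra hcon
  push Not at hcon
  have key : ∀ i, i < n → (P i ↔ P 0) := by
    intro i
    induction i with
    | zero => exact fun _ => Iff.rfl
    | succ i ih =>
      intro hi
      have h1 := hcon i hi
      have h2 := ih (by omega)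
      constructor
      · intro h
        by_contra h0
        exact h1.2 (fun h' => h0 (h2.1 h')) h
      · intro h
        exact h1.1 (h2.2 h)
  exact hPb ((key b hb).2 ((key a ha).1 hPa))

/-- Induced paths in `hang B H N`. -/
theorem pathFree_hang {V W : Type} {B : SimpleGraph V} {H : SimpleGraph W} {p N : ℕ}
    (hB : PathFree (p + 1) B) (hH : PathFree (p + 3) H) : PathFree (p + 3) (hang B H N) := by
  classical
  refine ⟨fun e => ?_⟩
  have hadj : ∀ i j : Fin (p + 3), (hang B H N).Adj (e i) (e j) ↔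
      ((i : ℕ) + 1 = j ∨ (j : ℕ) + 1 = i) := by
    intro i j
    rw [e.map_adj_iff, SimpleGraph.pathGraph_adj]
  -- interior vertices are in `B`
  have hint : ∀ i : Fin (p + 3), 0 < (i : ℕ) → (i : ℕ) < p + 2 → (e i).2 = none := by
    intro i hi0 hi1
    by_contra hne
    obtain ⟨⟨j, h⟩, hjh⟩ := Option.ne_none_iff_exists'.1 hne
    obtain ⟨b, hb⟩ : ∃ b, (e i).1 = b := ⟨_, rfl⟩
    have hei : e i = (b, some (j, h)) := Prod.ext hb hjh
    -- neighbours of a vertex in the copy
    have hnb : ∀ x y : V × Option (Fin N × W), (∃ h, x = (b, some (j, h))) →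
        (hang B H N).Adj x y → y = (b, none) ∨ ∃ h, y = (b, some (j, h)) := by
      rintro _ ⟨b', _ | ⟨j', h'⟩⟩ ⟨h, rfl⟩ hxy
      · left
        have : b = b' := hxy
        rw [this]
      · right
        obtain ⟨h1, h2, _⟩ : b = b' ∧ j = j' ∧ H.Adj h h' := hxy
        exact ⟨h', by rw [h1, h2]⟩
    by_cases hall : ∀ l, ∃ h, e l = (b, some (j, h))
    · choose g hg using hall
      apply hH.false
      refine ⟨⟨g, fun a a' haa => ?_⟩, ?_⟩
      · apply e.injective
        rw [hg a, hg a', haa]
      · intro a a'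
        have h1 : (hang B H N).Adj (e a) (e a') ↔ H.Adj (g a) (g a') := by
          rw [hg a, hg a']
          constructor
          · rintro ⟨_, _, h⟩; exact h
          · exact fun h => ⟨rfl, rfl, h⟩
        change H.Adj (g a) (g a') ↔ _
        rw [← h1, e.map_adj_iff]
    · push Not at hall
      obtain ⟨l, hl⟩ := hall
      -- `(b, none)` is on the path
      have hc : ∃ c, e c = (b, none) := by
        let P : ℕ → Prop := fun n => ∃ hn : n < p + 3, ∃ h, e ⟨n, hn⟩ = (b, some (j, h))
        obtain ⟨m, hm, hP⟩ := exists_change (n := p + 3) P (a := i) (b := l) i.2 l.2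
          ⟨i.2, h, hei⟩ (fun ⟨_, h, hh⟩ => hl h hh)
        rcases hP with ⟨⟨_, h1⟩, h2⟩ | ⟨h2, ⟨_, h1⟩⟩
        · have h3 : (hang B H N).Adj (e ⟨m, by omega⟩) (e ⟨m + 1, hm⟩) :=
            (hadj _ _).2 (Or.inl rfl)
          rcases hnb _ _ h1 h3 with h | h
          · exact ⟨_, h⟩
          · exact absurd ⟨hm, h⟩ h2
        · have h3 : (hang B H N).Adj (e ⟨m + 1, hm⟩) (e ⟨m, by omega⟩) :=
            (hadj _ _).2 (Or.inr rfl)
          rcases hnb _ _ h1 h3 with h | h
          · exact ⟨_, h⟩
          · exact absurd ⟨by omega, h⟩ h2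
      obtain ⟨c, hc⟩ := hc
      have hcadj : ∀ x, (∃ h, e x = (b, some (j, h))) → ((c : ℕ) + 1 = x ∨ (x : ℕ) + 1 = c) := by
        rintro x ⟨h, hx⟩
        rw [← hadj, hc, hx]
        rfl
      have hci := hcadj i ⟨h, hei⟩
      -- the other neighbour of `i`
      have hother : ∀ x : Fin (p + 3), ((i : ℕ) + 1 = x ∨ (x : ℕ) + 1 = i) → x ≠ c → False := by
        intro x hx hxc
        rcases hnb _ _ ⟨h, hei⟩ ((hadj i x).2 hx) with h' | h'
        · exact hxc (e.injective (h'.trans hc.symm))
        · have := hcadj x h'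
          omega
      rcases hci with h' | h'
      · refine hother ⟨i + 1, by omega⟩ (Or.inl rfl) (fun h => ?_)
        rw [← h] at h'
        simp only at h'
        omega
      · refine hother ⟨i - 1, by omega⟩ (Or.inr ?_) (fun h => ?_)
        · simp only; omega
        · rw [← h] at h'
          simp only at h'
          omega
  apply hB.false
  let s : Fin (p + 1) → Fin (p + 3) := fun l => ⟨l + 1, by omega⟩
  have hs : ∀ l, e (s l) = ((e (s l)).1, none) := fun l => Prod.ext rfl
    (hint (s l) (by simp [s]) (by have := l.2; simp only [s]; omega))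
  refine ⟨⟨fun l => (e (s l)).1, fun a a' haa => ?_⟩, ?_⟩
  · have haa' : (e (s a)).1 = (e (s a')).1 := haa
    have h1 : e (s a) = e (s a') := by rw [hs a, hs a', haa']
    have h2 := e.injective h1
    simp only [s, Fin.mk.injEq] at h2
    exact Fin.ext (by omega)
  · intro a a'
    have h1 : (hang B H N).Adj (e (s a)) (e (s a')) ↔ B.Adj (e (s a)).1 (e (s a')).1 := by
      rw [hs a, hs a']
      exact Iff.rfl
    change B.Adj (e (s a)).1 (e (s a')).1 ↔ _
    rw [← h1, hadj, SimpleGraph.pathGraph_adj]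
    simp only [s]
    omega

/-- The lower-bound graphs. -/
theorem lower_aux (m : ℕ) (hm : 1 ≤ m) (s : ℕ) : ∃ (V : Type) (_ : Fintype V) (_ : DecidableEq V)
    (G : SimpleGraph V), PTD G ((s + 1) * (m - 1)) ∧ m ^ (s + 1) ≤ treedepth G ∧
    PathFree (2 * (s + 1) + 1) G := by
  classical
  induction s with
  | zero =>
    refine ⟨Fin m, inferInstance, inferInstance, ⊤, ?_, ?_, ?_⟩
    · refine ⟨Unit, inferInstance, inferInstance, id, (), fun _ => 0, fun _ => Finset.univ,
        fun i hi => absurd rfl hi, fun v => ⟨(), Finset.mem_univ v⟩,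
        fun u v _ => ⟨(), Finset.mem_univ u, Finset.mem_univ v⟩,
        fun v => ⟨(), Finset.mem_univ v, fun i _ => Or.inl rfl⟩, fun _ => ?_⟩
      rw [Finset.card_univ, Fintype.card_fin]
      omega
    · rw [zero_add, pow_one]
      exact treedepth_top m
    · refine ⟨fun e => ?_⟩
      have h1 : ¬ (SimpleGraph.pathGraph (2 * (0 + 1) + 1)).Adj 0 2 := by
        rw [SimpleGraph.pathGraph_adj]
        decide
      apply h1
      rw [← e.map_adj_iff]
      intro h
      exact absurd (e.injective h) (by decide)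
  | succ s ih =>
    obtain ⟨V, _, _, B, hB1, hB2, hB3⟩ := ih
    have hpos : 1 ≤ m ^ (s + 1) := Nat.one_le_pow _ _ hm
    have key : ∀ i : ℕ, ∃ (W : Type) (_ : Fintype W) (_ : DecidableEq W) (H : SimpleGraph W),
        PTD H ((s + 1) * (m - 1) + i) ∧ (i + 1) * m ^ (s + 1) ≤ treedepth H ∧
        PathFree (2 * (s + 1) + 3) H := by
      intro i
      induction i with
      | zero =>
        refine ⟨V, inferInstance, inferInstance, B, hB1, ?_, pathFree_mono hB3 (by omega)⟩
        rw [zero_add, one_mul]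
        exact hB2
      | succ i ih =>
        obtain ⟨W, _, _, H, hH1, hH2, hH3⟩ := ih
        refine ⟨V × Option (Fin (Nat.card V * (m ^ (s + 1) + (i + 1) * m ^ (s + 1)) + 1) × W),
          inferInstance, inferInstance, hang B H _,
          PTD_hang hB1 hH1 (by omega) (by omega), ?_, pathFree_hang hB3 hH3⟩
        have h1 : 1 ≤ (i + 1) * m ^ (s + 1) := Nat.mul_pos (by omega) hpos
        have := treedepth_hang (B := B) (H := H) hB2 hH2 hpos h1 (Nat.lt_succ_self _)
        calc (i + 1 + 1) * m ^ (s + 1) = m ^ (s + 1) + (i + 1) * m ^ (s + 1) := by ring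
          _ ≤ _ := this
    obtain ⟨W, h1, h2, H, hH1, hH2, hH3⟩ := key (m - 1)
    refine ⟨W, h1, h2, H, ?_, ?_, ?_⟩
    · have : (s + 1 + 1) * (m - 1) = (s + 1) * (m - 1) + (m - 1) := by ring
      rw [this]
      exact hH1
    · have : m - 1 + 1 = m := by omega
      rw [this] at hH2
      rw [pow_succ' m (s + 1)]
      exact hH2
    · have : 2 * (s + 1 + 1) + 1 = 2 * (s + 1) + 3 := by ring
      rw [this]
      exact hH3

/-- **Lower bound.** For `s ≥ 1` there are graphs of treewidth at most `k` without induced path on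
`2 s + 1` vertices and with treedepth at least `(k / s + 1) ^ s`. -/
theorem lower (k s : ℕ) (hs : 1 ≤ s) : ∃ (V : Type) (_ : Finite V) (G : SimpleGraph V),
    treewidth G ≤ k ∧ PathFree (2 * s + 1) G ∧ (k / s + 1) ^ s ≤ treedepth G := by
  obtain ⟨s, rfl⟩ : ∃ s', s = s' + 1 := ⟨s - 1, by omega⟩
  obtain ⟨V, _, _, G, h1, h2, h3⟩ := lower_aux (k / (s + 1) + 1) (Nat.succ_le_succ (Nat.zero_le _)) s
  refine ⟨V, inferInstance, G, (treewidth_le_of_PTD h1).trans ?_, h3, h2⟩
  rw [Nat.add_sub_cancel]
  exact Nat.mul_div_le k (s + 1)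

end Pool.Agent.TDPath
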