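import Pool.Agent.Lib.MP_04d34b_co.Elim

/-!
The recursion from `p` to `p - 2`, and the base cases `p = 2` and `p = 3`.
-/

namespace Pool.Agent.TDPath

variable {V : Type}

/-- Base case `p = 2`. -/
theorem elim_two {G : SimpleGraph V} (D : TreeDecomp G) {k : ℕ}
    (hk : ∀ i, (D.bag i).card ≤ k + 1) {F : Set (Set V)} (hF : ∀ A ∈ F, Conn G A) {S : Set V}
    (h : ∀ C ⊆ S, ¬ Far G F 2 C) : Elim G F (k + 1) S := by
  classical
  apply Elim.of_conn hF
  intro C hC hc
  apply elim_of_touch D hk hF
  intro A hA B hB hAC hBC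
  by_contra hcon
  apply h C hC
  refine ⟨C, le_rfl, hc, A, hA, B, hB, hAC, hBC,
    fun x => if x ∈ A then 0 else if ∃ a ∈ A, G.Adj a x then 1 else 2, ?_, ?_, ?_⟩
  · intro x _ y _ hxy
    by_cases hxA : x ∈ A
    · simp [hxA]
    · by_cases hyA : y ∈ A
      · have : ∃ a ∈ A, G.Adj a x := ⟨y, hyA, hxy.symm⟩
        simp only [hxA, if_false, this, if_true]
        omega
      · simp only [hxA, hyA, if_false]
        split_ifs <;> omega
  · intro x hx
    simp [hx]
  · intro x hx
    have h1 : x ∉ A := fun h => hcon ⟨x, h, x, hx, Or.inl rfl⟩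
    have h2 : ¬ ∃ a ∈ A, G.Adj a x := fun ⟨a, ha, hax⟩ => hcon ⟨a, ha, x, hx, Or.inr hax⟩
    simp only [h1, h2, if_false]
    exact le_rfl

/-- The recursion step. -/
theorem elim_step [Finite V] {G : SimpleGraph V} (D : TreeDecomp G) {k : ℕ}
    (hk : ∀ i, (D.bag i).card ≤ k + 1) {p R : ℕ} (hp : 4 ≤ p)
    (hR : ∀ (K : Set (Set V)), (∀ A ∈ K, Conn G A) → ∀ S : Set V,
      ¬ Far G K (p - 2) S → Elim G K R S)
    {F : Set (Set V)} (hF : ∀ A ∈ F, Conn G A) :
    ∀ (j : ℕ) (S : Set V), j ≤ k + 2 → ¬ Far G F p S → Hubs G F S (k + 2 - j) →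
      Elim G F (j * R + (k + 1)) S := by
  classical
  intro j
  induction j with
  | zero =>
    rintro S _ _ ⟨Z, h1, _, h3, h4⟩
    rw [Nat.zero_mul, Nat.zero_add]
    exact elim_of_hubs D hk hF Z h1 h3 h4
  | succ j ih =>
    intro S hj hS hH
    set r := j * R + (k + 1) with hr
    let K : Set (Set V) := {C | C ⊆ S ∧ Conn G C ∧ ¬ Elim G F r C}
    have hK : Elim G K R S := by
      apply hR K (fun A hA => hA.2.1)
      rintro ⟨C₀, hC₀S, hC₀, A, ⟨hAS, hAc, hAE⟩, B, ⟨hBS, hBc, hBE⟩, hAC₀, hBC₀, L, hL, hLA, hLB⟩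
      have hAB : Disjoint A B := Set.disjoint_left.2 fun x hxA hxB => by
        have h1 := hLA x hxA
        have h2 := hLB x hxB
        omega
      obtain ⟨C, hCC₀, hC, hAC, hBC, hCA, hCB⟩ := exists_min_conn hC₀ hAc hBc hAC₀ hBC₀ hAB
      have hCS : C ⊆ S := hCC₀.trans hC₀S
      -- big sets have untouched targets
      have big : ∀ X : Set V, X ⊆ S → ¬ Elim G F r X → ∀ Z : Set V, Conn G Z → Z ⊆ S →
          Disjoint Z X → ∃ A' ∈ F, A' ⊆ X ∧ ¬ Touch G Z A' := by
        intro X hXS hX Z hZ hZS hZX
        by_contra hcon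
        push Not at hcon
        apply hX
        apply ih X (by omega) (fun h => hS (h.mono_set hXS))
        have := hH.cons hXS hZ hZS hZX hcon
        have heq : k + 2 - (j + 1) + 1 = k + 2 - j := by omega
        rwa [heq] at this
      obtain ⟨A', hA'F, hA'A, hA'⟩ := big A hAS hAE (C \ A) hCA
        (Set.sdiff_subset.trans hCS) (Set.disjoint_left.2 fun x hx => hx.2)
      obtain ⟨B', hB'F, hB'B, hB'⟩ := big B hBS hBE (C \ B) hCB
        (Set.sdiff_subset.trans hCS) (Set.disjoint_left.2 fun x hx => hx.2)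
      apply hS
      let PA : V → Prop := fun x => ∃ z ∈ C \ A, G.Adj x z
      let PB : V → Prop := fun x => ∃ z ∈ C \ B, G.Adj x z
      let L' : V → ℕ := fun x => if x ∈ A then (if PA x then 1 else 0)
        else if x ∈ B then (if PB x then p - 1 else p) else min (L x) (p - 2) + 1
      have hmid : ∀ x, x ∉ A → x ∉ B → L' x = min (L x) (p - 2) + 1 := fun x h1 h2 => by
        simp only [L', h1, h2, if_false]
      have hLin : ∀ x ∈ A, L' x = if PA x then 1 else 0 := fun x h1 => by
        simp only [L', h1, if_true]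
      have hLout : ∀ x ∈ B, L' x = if PB x then p - 1 else p := fun x h1 => by
        have h2 : x ∉ A := fun h => Set.disjoint_left.1 hAB h h1
        simp only [L', h1, h2, if_true, if_false]
      refine ⟨C, hCS, hC, A', hA'F, B', hB'F, hA'A.trans hAC, hB'B.trans hBC, L', ?_, ?_, ?_⟩
      · intro x hx y hy hxy
        have hxy1 := hL x (hCC₀ hx) y (hCC₀ hy) hxy
        have hxy2 := hL y (hCC₀ hy) x (hCC₀ hx) hxy.symm
        by_cases hxA : x ∈ A
        · rw [hLin x hxA]
          have hLx := hLA x hxA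
          by_cases hyA : y ∈ A
          · rw [hLin y hyA]
            split_ifs <;> omega
          · by_cases hyB : y ∈ B
            · have := hLB y hyB
              omega
            · rw [hmid y hyA hyB]
              split_ifs <;> omega
        · by_cases hxB : x ∈ B
          · rw [hLout x hxB]
            have hLx := hLB x hxB
            by_cases hyA : y ∈ A
            · have := hLA y hyA
              omega
            · by_cases hyB : y ∈ B
              · rw [hLout y hyB]
                split_ifs <;> omega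
              · have hPB : PB x := ⟨y, ⟨hy, hyB⟩, hxy⟩
                rw [hmid y hyA hyB, if_pos hPB]
                omega
          · rw [hmid x hxA hxB]
            by_cases hyA : y ∈ A
            · have hPA : PA y := ⟨x, ⟨hx, hxA⟩, hxy.symm⟩
              have hLy := hLA y hyA
              rw [hLin y hyA, if_pos hPA]
              omega
            · by_cases hyB : y ∈ B
              · have hPB : PB y := ⟨x, ⟨hx, hxB⟩, hxy.symm⟩
                have hLy := hLB y hyB
                rw [hLout y hyB, if_pos hPB]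
                omega
              · rw [hmid y hyA hyB]
                omega
      · intro x hx
        rw [hLin x (hA'A hx), if_neg]
        rintro ⟨z, hz, hxz⟩
        exact hA' ⟨z, hz, x, hx, Or.inr hxz.symm⟩
      · intro x hx
        rw [hLout x (hB'B hx), if_neg]
        rintro ⟨z, hz, hxz⟩
        exact hB' ⟨z, hz, x, hx, Or.inr hxz.symm⟩
    have h2 : Elim G F (R + r) S := by
      apply Elim.trans hF _ hK
      intro C hCS hC hCK
      by_contra hcon
      exact hCK C ⟨hCS, hC, hcon⟩ le_rfl
    have heq : (j + 1) * R + (k + 1) = R + r := by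
      rw [hr, Nat.succ_mul]
      omega
    rw [heq]
    exact h2

theorem elim_succ [Finite V] {G : SimpleGraph V} (D : TreeDecomp G) {k : ℕ}
    (hk : ∀ i, (D.bag i).card ≤ k + 1) {p R : ℕ} (hp : 4 ≤ p)
    (hR : ∀ (K : Set (Set V)), (∀ A ∈ K, Conn G A) → ∀ S : Set V,
      ¬ Far G K (p - 2) S → Elim G K R S)
    {F : Set (Set V)} (hF : ∀ A ∈ F, Conn G A) (S : Set V) (hS : ¬ Far G F p S) :
    Elim G F ((k + 2) * R + (k + 1)) S := by
  apply elim_step D hk hp hR hF (k + 2) S le_rfl hS
  rw [Nat.sub_self]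
  exact ⟨Fin.elim0, fun j => j.elim0, fun j => j.elim0, fun j => j.elim0, fun j => j.elim0⟩

end Pool.Agent.TDPath
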