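import Pool.Agent.Lib.MP_04d34b_co.Base3

/-!
The upper bound.
-/

namespace Pool.Agent.TDPath

variable {V : Type}

/-- `R` is enough for all families without targets at distance `p`. -/
def Bd (G : SimpleGraph V) (p R : ℕ) : Prop :=
  ∀ (F : Set (Set V)), (∀ A ∈ F, Conn G A) → ∀ S : Set V, ¬ Far G F p S → Elim G F R S

theorem bd_two {G : SimpleGraph V} (D : TreeDecomp G) {k : ℕ}
    (hk : ∀ i, (D.bag i).card ≤ k + 1) : Bd G 2 (k + 1) :=
  fun _ hF _ hS => elim_two D hk hF (fun _ hC h => hS (h.mono_set hC))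

theorem bd_three [Finite V] {G : SimpleGraph V} (D : TreeDecomp G) {k : ℕ}
    (hk : ∀ i, (D.bag i).card ≤ k + 1) : Bd G 3 (3 * k + 4) :=
  fun _ hF _ hS => elim_three D hk hF hS

theorem bd_step [Finite V] {G : SimpleGraph V} (D : TreeDecomp G) {k : ℕ}
    (hk : ∀ i, (D.bag i).card ≤ k + 1) {p R : ℕ} (hp : 2 ≤ p) (h : Bd G p R) :
    Bd G (p + 2) ((k + 2) * R + (k + 1)) := by
  have h' : Bd G (p + 2 - 2) R := by rwa [Nat.add_sub_cancel]
  intro F hF S hS
  exact elim_succ D hk (p := p + 2) (by omega) h' hF S hS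

theorem bd_even [Finite V] {G : SimpleGraph V} (D : TreeDecomp G) {k : ℕ}
    (hk : ∀ i, (D.bag i).card ≤ k + 1) (s : ℕ) :
    ∃ R, R + 1 ≤ 2 * (k + 2) ^ (s + 1) ∧ Bd G (2 * (s + 1)) R := by
  induction s with
  | zero =>
    exact ⟨k + 1, by simp only [zero_add, pow_one]; omega, bd_two D hk⟩
  | succ s ih =>
    obtain ⟨R, hR, hB⟩ := ih
    refine ⟨(k + 2) * R + (k + 1), ?_, ?_⟩
    · calc (k + 2) * R + (k + 1) + 1 = (k + 2) * (R + 1) := by ring
        _ ≤ (k + 2) * (2 * (k + 2) ^ (s + 1)) := Nat.mul_le_mul_left _ hR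
        _ = 2 * (k + 2) ^ (s + 1 + 1) := by ring
    · exact bd_step (p := 2 * (s + 1)) D hk (by omega) hB

theorem bd_odd [Finite V] {G : SimpleGraph V} (D : TreeDecomp G) {k : ℕ}
    (hk : ∀ i, (D.bag i).card ≤ k + 1) (s : ℕ) :
    ∃ R, R + 1 ≤ 4 * (k + 2) ^ (s + 1) ∧ Bd G (2 * (s + 1) + 1) R := by
  induction s with
  | zero =>
    exact ⟨3 * k + 4, by simp only [zero_add, pow_one]; omega, bd_three D hk⟩
  | succ s ih =>
    obtain ⟨R, hR, hB⟩ := ih
    refine ⟨(k + 2) * R + (k + 1), ?_, ?_⟩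
    · calc (k + 2) * R + (k + 1) + 1 = (k + 2) * (R + 1) := by ring
        _ ≤ (k + 2) * (4 * (k + 2) ^ (s + 1)) := Nat.mul_le_mul_left _ hR
        _ = 4 * (k + 2) ^ (s + 1 + 1) := by ring
    · exact bd_step (p := 2 * (s + 1) + 1) D hk (by omega) hB

/-- The family of all singletons. -/
def singles (V : Type) : Set (Set V) := {A | ∃ v, A = {v}}

theorem conn_singles (G : SimpleGraph V) : ∀ A ∈ singles V, Conn G A := by
  rintro _ ⟨v, rfl⟩
  exact conn_singleton G v

theorem reachable_of_conn {G : SimpleGraph V} {C : Set V} (hC : Conn G C) {u x : V} (hu : u ∈ C)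
    (hx : x ∈ C) : (G.induce C).Reachable ⟨u, hu⟩ ⟨x, hx⟩ := by
  have h : {y | ∃ h : y ∈ C, (G.induce C).Reachable ⟨u, hu⟩ ⟨y, h⟩} = C := by
    apply hC.2
    · rintro y ⟨h, _⟩; exact h
    · exact ⟨u, hu, SimpleGraph.Reachable.refl _⟩
    · rintro a ⟨ha, har⟩ b hb hab
      refine ⟨hb, har.trans ?_⟩
      apply SimpleGraph.Adj.reachable
      exact hab
  have : x ∈ {y | ∃ h : y ∈ C, (G.induce C).Reachable ⟨u, hu⟩ ⟨y, h⟩} := by rw [h]; exact hx
  exact this.2

/-- In a `P_t`-free graph no two vertices are at distance `t - 1` in a connected induced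
subgraph. -/
theorem not_far_of_pathFree {G : SimpleGraph V} {t : ℕ} (ht : 1 ≤ t) (hG : PathFree t G)
    (S : Set V) : ¬ Far G (singles V) (t - 1) S := by
  rintro ⟨C, _, hC, _, ⟨u, rfl⟩, _, ⟨v, rfl⟩, hu, hv, L, hL, hLu, hLv⟩
  have huC : u ∈ C := hu rfl
  have hvC : v ∈ C := hv rfl
  have hLu' := hLu u rfl
  have hLv' := hLv v rfl
  have hr := reachable_of_conn hC huC hvC
  obtain ⟨p, hp⟩ := hr.exists_walk_length_eq_dist
  have hLip : ∀ (a b : C) (q : (G.induce C).Walk a b), L b ≤ L a + q.length := by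
    intro a b q
    induction q with
    | nil => simp
    | cons hadj q ih =>
      rename_i a b c
      have := hL b b.2 a a.2 hadj.symm
      rw [SimpleGraph.Walk.length_cons]
      omega
  have hlen : t - 1 ≤ p.length := by
    have := hLip _ _ p
    simp only at this
    omega
  -- distances along the walk
  have hdist : ∀ i ≤ p.length, (G.induce C).dist ⟨u, huC⟩ (p.getVert i) = i := by
    intro i hi
    apply le_antisymm
    · have := SimpleGraph.dist_le (p.take i)
      rw [SimpleGraph.Walk.take_length] at this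
      exact this.trans (min_le_left _ _)
    · have h1 := SimpleGraph.dist_le (p.drop i)
      rw [SimpleGraph.Walk.drop_length] at h1
      have h2 : (G.induce C).dist ⟨u, huC⟩ ⟨v, hvC⟩ ≤
          (G.induce C).dist ⟨u, huC⟩ (p.getVert i) + (G.induce C).dist (p.getVert i) ⟨v, hvC⟩ :=
        SimpleGraph.Reachable.dist_triangle_left (p.take i).reachable _
      omega
  apply hG.false
  let f : Fin t → C := fun i => p.getVert i
  have hfi : ∀ i : Fin t, (i : ℕ) ≤ p.length := fun i => by have := i.2; omega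
  have hinj : Function.Injective f := by
    intro i j hij
    have h1 := hdist i (hfi i)
    have h2 := hdist j (hfi j)
    simp only [f] at hij
    rw [hij, h2] at h1
    exact Fin.ext h1.symm
  have hadj : ∀ i j : Fin t, (G.induce C).Adj (f i) (f j) ↔ (SimpleGraph.pathGraph t).Adj i j := by
    have key : ∀ i j : Fin t, (i : ℕ) < j → ((G.induce C).Adj (f i) (f j) ↔ (i : ℕ) + 1 = j) := by
      intro i j hij
      constructor
      · intro h
        have h1 := hdist i (hfi i)
        have h2 := hdist j (hfi j)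
        have h3 := SimpleGraph.Reachable.dist_triangle_left (p.take i).reachable (p.getVert j)
        have h4 : (G.induce C).dist (p.getVert i) (p.getVert j) = 1 :=
          SimpleGraph.dist_eq_one_iff_adj.2 h
        omega
      · intro h
        have h1 : (i : ℕ) < p.length := by have := hfi j; omega
        have := p.adj_getVert_succ h1
        rw [h] at this
        exact this
    intro i j
    rw [SimpleGraph.pathGraph_adj]
    rcases lt_trichotomy (i : ℕ) j with h | h | h
    · rw [key i j h]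
      omega
    · have : i = j := Fin.ext h
      subst this
      simp
    · rw [SimpleGraph.adj_comm, key j i h]
      omega
  let e : SimpleGraph.pathGraph t ↪g G.induce C := ⟨⟨f, hinj⟩, fun {i j} => hadj i j⟩
  exact (SimpleGraph.Embedding.induce C).comp e

/-- A forest of height at most `n` on the set `W`, in which edges join comparable vertices. -/
def FO (G : SimpleGraph V) (W : Set V) (n : ℕ) : Prop :=
  ∃ r : V → V → Prop, (∀ u v, r u v → u ∈ W ∧ v ∈ W) ∧ (∀ v ∈ W, r v v) ∧
    (∀ u v, r u v → r v u → u = v) ∧ (∀ u v w, r u v → r v w → r u w) ∧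
    (∀ u w v, r u v → r w v → r u w ∨ r w u) ∧
    (∀ u ∈ W, ∀ v ∈ W, G.Adj u v → r u v ∨ r v u) ∧ ∀ v, {u | r u v}.ncard ≤ n

/-- Elimination of all vertices gives a forest. -/
theorem forest_of_elim [Finite V] {G : SimpleGraph V} : ∀ (n : ℕ) (W : Set V),
    Elim G (singles V) n W → FO G W n := by
  classical
  intro n
  induction n with
  | zero =>
    intro W hW
    have hWe : ∀ v, v ∉ W := fun v hv => hW {v} ⟨v, rfl⟩ (Set.singleton_subset_iff.2 hv)
    refine ⟨fun _ _ => False, ?_, ?_, ?_, ?_, ?_, ?_, ?_⟩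
    · exact fun _ _ h => h.elim
    · exact fun v hv => hWe v hv
    · exact fun _ _ h => h.elim
    · exact fun _ _ _ h => h.elim
    · exact fun _ _ _ h => h.elim
    · exact fun u hu => absurd hu (hWe u)
    · intro v
      simp
  | succ n ih =>
    intro W hW
    by_cases hne : Nonempty V
    swap
    · refine ⟨fun _ _ => False, ?_, ?_, ?_, ?_, ?_, ?_, ?_⟩
      · exact fun _ _ h => h.elim
      · exact fun v => absurd ⟨v⟩ hne
      · exact fun _ _ h => h.elim
      · exact fun _ _ _ h => h.elim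
      · exact fun _ _ _ h => h.elim
      · exact fun u => absurd ⟨u⟩ hne
      · intro v
        simp
    have hch : ∀ C : Set V, (C ⊆ W ∧ Conn G C) → ∃ ρ ∈ C, FO G (C \ {ρ}) n := by
      rintro C ⟨hCW, hC⟩
      obtain ⟨v, hv⟩ := hW C hCW hC
      by_cases hvC : v ∈ C
      · exact ⟨v, hvC, ih _ hv⟩
      · obtain ⟨c, hc⟩ := hC.1
        refine ⟨c, hc, ih _ (hv.mono_set ?_)⟩
        intro x hx
        exact ⟨hx.1, fun h => hvC (Set.mem_singleton_iff.1 h ▸ hx.1)⟩
    choose! root hroot hfo using hch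
    choose! rel hrel using hfo
    -- the component of a vertex
    let comp : V → Set V := fun x => {y | ∃ C ⊆ W, Conn G C ∧ x ∈ C ∧ y ∈ C}
    have hself : ∀ x ∈ W, x ∈ comp x := fun x hx =>
      ⟨{x}, Set.singleton_subset_iff.2 hx, conn_singleton G x, rfl, rfl⟩
    have hsub : ∀ x, comp x ⊆ W := by
      rintro x y ⟨C, hC, _, _, hy⟩
      exact hC hy
    have hxW : ∀ x y, y ∈ comp x → x ∈ W := by
      rintro x y ⟨C, hC, _, hx, _⟩
      exact hC hx
    have hsymm : ∀ x y, y ∈ comp x → x ∈ comp y := by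
      rintro x y ⟨C, h1, h2, h3, h4⟩
      exact ⟨C, h1, h2, h4, h3⟩
    have htrans : ∀ x y z, y ∈ comp x → z ∈ comp y → z ∈ comp x := by
      rintro x y z ⟨C, h1, h2, h3, h4⟩ ⟨C', h1', h2', h3', h4'⟩
      exact ⟨C ∪ C', Set.union_subset h1 h1', h2.union h2' ⟨y, h4, y, h3', Or.inl rfl⟩,
        Or.inl h3, Or.inr h4'⟩
    have heq : ∀ x y, y ∈ comp x → comp y = comp x := by
      intro x y h
      ext z
      exact ⟨fun hz => htrans x y z h hz, fun hz => htrans y x z (hsymm x y h) hz⟩
    have hconn : ∀ x ∈ W, Conn G (comp x) := by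
      intro x hx
      have h1 := (conn_singleton G x).union_family {C | C ⊆ W ∧ Conn G C ∧ x ∈ C}
        (fun C hC => hC.2.1) (fun C hC => ⟨x, rfl, x, hC.2.2, Or.inl rfl⟩)
      have h2 : comp x = {x} ∪ ⋃₀ {C | C ⊆ W ∧ Conn G C ∧ x ∈ C} := by
        ext y
        constructor
        · rintro ⟨C, h1, h2, h3, h4⟩
          exact Or.inr ⟨C, ⟨h1, h2, h3⟩, h4⟩
        · rintro (rfl | ⟨C, ⟨h1, h2, h3⟩, h4⟩)
          · exact hself _ hx
          · exact ⟨C, h1, h2, h3, h4⟩
      rw [h2]
      exact h1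
    have hrootmem : ∀ x ∈ W, root (comp x) ∈ comp x := fun x hx =>
      hroot _ ⟨hsub x, hconn x hx⟩
    have hR : ∀ x ∈ W, _ := fun x hx => hrel (comp x) ⟨hsub x, hconn x hx⟩
    refine ⟨fun u v => u ∈ comp v ∧ (u = root (comp v) ∨ rel (comp v) u v),
      ?_, ?_, ?_, ?_, ?_, ?_, ?_⟩
    · rintro u v ⟨h, _⟩
      exact ⟨hsub v h, hxW v u h⟩
    · intro v hv
      refine ⟨hself v hv, ?_⟩
      by_cases h : v = root (comp v)
      · exact Or.inl h
      · exact Or.inr ((hR v hv).2.1 v ⟨hself v hv, h⟩)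
    · rintro u v ⟨huv, h1⟩ ⟨hvu, h2⟩
      have hvW : v ∈ W := hxW v u huv
      rw [heq v u huv] at h2
      rcases h1 with h1 | h1
      · rcases h2 with h2 | h2
        · rw [h1, ← h2]
        · exact absurd h1 ((hR v hvW).1 _ _ h2).2.2
      · rcases h2 with h2 | h2
        · exact absurd h2 ((hR v hvW).1 _ _ h1).2.2
        · exact (hR v hvW).2.2.1 u v h1 h2
    · rintro u v w ⟨huv, h1⟩ ⟨hvw, h2⟩
      have hwW : w ∈ W := hxW w v hvw
      refine ⟨htrans w v u hvw huv, ?_⟩
      rw [heq w v hvw] at h1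
      rcases h1 with h1 | h1
      · exact Or.inl h1
      · rcases h2 with h2 | h2
        · exact absurd h2 ((hR w hwW).1 _ _ h1).2.2
        · exact Or.inr ((hR w hwW).2.2.2.1 u v w h1 h2)
    · rintro u w v ⟨huv, h1⟩ ⟨hwv, h2⟩
      have hvW : v ∈ W := hxW v u huv
      have huw : u ∈ comp w := htrans w v u (hsymm v w hwv) huv
      have hwu : w ∈ comp u := htrans u v w (hsymm v u huv) hwv
      have e1 : comp w = comp v := heq v w hwv
      have e2 : comp u = comp v := heq v u huv
      rcases h1 with h1 | h1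
      · left
        exact ⟨huw, Or.inl (by rw [e1]; exact h1)⟩
      · rcases h2 with h2 | h2
        · right
          exact ⟨hwu, Or.inl (by rw [e2]; exact h2)⟩
        · rcases (hR v hvW).2.2.2.2.1 u w v h1 h2 with h | h
          · left; exact ⟨huw, Or.inr (by rw [e1]; exact h)⟩
          · right; exact ⟨hwu, Or.inr (by rw [e2]; exact h)⟩
    · intro u hu v hv huv
      have huv' : u ∈ comp v := by
        refine ⟨{v} ∪ {u}, ?_, (conn_singleton G v).union (conn_singleton G u)
          ⟨v, rfl, u, rfl, Or.inr huv.symm⟩, Or.inl rfl, Or.inr rfl⟩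
        rintro x (rfl | rfl)
        · exact hv
        · exact hu
      have hvu' : v ∈ comp u := hsymm v u huv'
      have e2 : comp u = comp v := heq v u huv'
      by_cases h1 : u = root (comp v)
      · left; exact ⟨huv', Or.inl h1⟩
      · by_cases h2 : v = root (comp v)
        · right; exact ⟨hvu', Or.inl (by rw [e2]; exact h2)⟩
        · rcases (hR v hv).2.2.2.2.2.1 u ⟨huv', h1⟩ v ⟨hself v hv, h2⟩ huv with h | h
          · left; exact ⟨huv', Or.inr h⟩
          · right; exact ⟨hvu', Or.inr (by rw [e2]; exact h)⟩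
    · intro v
      dsimp only
      by_cases hv : v ∈ W
      · have h1 : {u | u ∈ comp v ∧ (u = root (comp v) ∨ rel (comp v) u v)} ⊆
            insert (root (comp v)) {u | rel (comp v) u v} := by
          rintro u ⟨_, h | h⟩
          · exact Or.inl h
          · exact Or.inr h
        have h2 := Set.ncard_le_ncard h1 (Set.toFinite _)
        have h3 := Set.ncard_insert_le (root (comp v)) {u | rel (comp v) u v}
        have h4 := (hR v hv).2.2.2.2.2.2 v
        omega
      · have : {u | u ∈ comp v ∧ (u = root (comp v) ∨ rel (comp v) u v)} = ∅ := by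
          ext u
          simp only [Set.mem_ofPred_eq, Set.mem_empty_iff_false, iff_false]
          rintro ⟨h, _⟩
          exact hv (hxW v u h)
        rw [this]
        simp

theorem treedepth_le_of_elim [Finite V] {G : SimpleGraph V} {n : ℕ}
    (h : Elim G (singles V) n Set.univ) : treedepth G ≤ n := by
  obtain ⟨r, _, h2, h3, h4, h5, h6, h7⟩ := forest_of_elim n Set.univ h
  apply Nat.sInf_le
  exact ⟨⟨r, fun v => h2 v trivial, h3, h4, h5⟩, fun u v huv => h6 u trivial v trivial huv, h7⟩

theorem nonempty_decomp [Finite V] (G : SimpleGraph V) :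
    {w | ∃ D : TreeDecomp G, ∀ i, (D.bag i).card ≤ w + 1}.Nonempty := by
  classical
  have := Fintype.ofFinite V
  refine ⟨Fintype.card V, ⟨Unit, inferInstance, ⊥, SimpleGraph.IsTree.of_subsingleton,
    fun _ => Finset.univ, fun v => ⟨(), Finset.mem_univ v⟩,
    fun u v _ => ⟨(), Finset.mem_univ u, Finset.mem_univ v⟩, fun v => ?_⟩, fun i => ?_⟩
  · have : Nonempty {i : Unit | v ∈ (Finset.univ : Finset V)} := ⟨⟨(), Finset.mem_univ v⟩⟩
    exact (SimpleGraph.IsTree.of_subsingleton).connected
  · change Finset.univ.card ≤ _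
    rw [Finset.card_univ]
    omega

theorem exists_decomp [Finite V] {G : SimpleGraph V} {k : ℕ} (h : treewidth G ≤ k) :
    ∃ D : TreeDecomp G, ∀ i, (D.bag i).card ≤ k + 1 := by
  obtain ⟨D, hD⟩ := Nat.sInf_mem (nonempty_decomp G)
  exact ⟨D, fun i => (hD i).trans (by unfold treewidth at h; omega)⟩

/-- **Upper bound.** A finite `P_t`-free graph of treewidth at most `k` has treedepth at most
`4 (k + 2) ^ ⌊(t - 1) / 2⌋`. -/
theorem treedepth_le [Finite V] {G : SimpleGraph V} {k t : ℕ} (ht : 2 ≤ t) (hk : treewidth G ≤ k)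
    (hG : PathFree t G) : treedepth G ≤ 4 * (k + 2) ^ ((t - 1) / 2) := by
  obtain ⟨D, hD⟩ := exists_decomp hk
  have hfar := not_far_of_pathFree (by omega) hG (Set.univ : Set V)
  apply treedepth_le_of_elim
  rcases Nat.even_or_odd' (t - 1) with ⟨s, hs | hs⟩
  · -- `t - 1 = 2 s`
    obtain ⟨s, rfl⟩ : ∃ s', s = s' + 1 := ⟨s - 1, by omega⟩
    obtain ⟨R, hR, hB⟩ := bd_even D hD s
    rw [hs] at hfar ⊢
    refine (hB _ (conn_singles G) _ hfar).mono ?_
    have : 2 * (s + 1) / 2 = s + 1 := by omega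
    rw [this]
    omega
  · rcases Nat.eq_zero_or_pos s with rfl | hpos
    · -- `t = 2`
      have ht2 : t - 1 = 1 := by omega
      rw [ht2] at hfar ⊢
      have h1 : Elim G (singles V) 1 Set.univ := by
        intro C _ hC
        obtain ⟨v, hv⟩ := hC.1
        refine ⟨v, ?_⟩
        rintro _ ⟨w, rfl⟩ hw
        have hw' := hw rfl
        classical
        apply hfar
        refine ⟨C, Set.subset_univ _, hC, {v}, ⟨v, rfl⟩, {w}, ⟨w, rfl⟩,
          Set.singleton_subset_iff.2 hv, Set.singleton_subset_iff.2 hw'.1,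
          fun x => if x = v then 0 else 1, ?_, ?_, ?_⟩
        · intro x _ y _ _
          dsimp only
          split_ifs <;> omega
        · rintro x rfl
          simp
        · rintro x rfl
          have : x ≠ v := hw'.2
          simp [this]
      exact h1.mono (by norm_num)
    · obtain ⟨s, rfl⟩ : ∃ s', s = s' + 1 := ⟨s - 1, by omega⟩
      obtain ⟨R, hR, hB⟩ := bd_odd D hD s
      rw [hs] at hfar ⊢
      refine (hB _ (conn_singles G) _ hfar).mono ?_
      have : (2 * (s + 1) + 1) / 2 = s + 1 := by omega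
      rw [this]
      omega

end Pool.Agent.TDPath
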